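import Pool.Agent.Lib.MP_3e612f_nt.HU.Defs

/-!
HU, section Assemble: from block sequences to averages over short intervals.

PROOF of `sum_real`. Let `β n h = u (T^[h] (x n)) * cos (2 π (P n).eval h)`. For `c < H` use
`x' j = x (H * j - c)`, `P' j = P (H * j - c)` (subtraction of natural numbers). Then
`blk T u H c x' P' m = β (m - (m + c) % H) ((m + c) % H)`, because `H * ((m + c) / H) - c =
m - (m + c) % H` (also for truncated subtraction). For fixed `m` the map `c ↦ (m + c) % H` is a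
bijection of `range H`, so `∑_{c < H} blk T u H c x' P' m = ∑_{h < H} β (m - h) h`. For fixed `h`,
`∑_{n ∈ Icc 1 N} mu (n + h) β n h` and `∑_{m ∈ Icc 1 N} mu m β (m - h) h` differ by at most `2 h`
(substitute `m = n + h`). Total error `≤ 2 H ^ 2`.
PROOF of `sum_abs`. Replace `P n` by `P n + C (1/2)` for those `n` for which the inner sum is
negative (`cos (t + π) = - cos t`; `d ≥ 1`, so the hypothesis on `P` still holds).
PROOF of `assemble`. `f = a + i b`, `e (P) = cos (2 π P) + i cos (2 π (P - 1/4))`: the inner sum has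
norm at most the sum of the absolute values of four real sums, with `u ∈ {re f, im f}` and
`P n + C 0` or `P n + C (-1/4)` (compare `main_f` in `HD/Main.lean`).
-/

set_option autoImplicit false

namespace Pool.Agent.Lib.MP_3e612f_nt.HU

open Pool.Agent.Lib.MP_3e612f_nt Pool.Agent.Lib.MP_3e612f_nt.HD

private theorem Assemble_sum_mod {M : Type} [AddCommMonoid M] (F : ℕ → M) {H : ℕ} (hH : 1 ≤ H)
    (m : ℕ) : ∑ c ∈ Finset.range H, F ((m + c) % H) = ∑ h ∈ Finset.range H, F h := by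
  have hmaps : Set.MapsTo (fun c => (m + c) % H) (Finset.range H : Set ℕ) (Finset.range H) := by
    intro c _
    exact Finset.mem_coe.2 (Finset.mem_range.2 (Nat.mod_lt _ hH))
  have hinj : Set.InjOn (fun c => (m + c) % H) (Finset.range H : Set ℕ) := by
    intro c hc c' hc' h
    have h1 : m + c ≡ m + c' [MOD H] := h
    have h2 : c ≡ c' [MOD H] := Nat.ModEq.add_left_cancel' m h1
    exact Nat.ModEq.eq_of_lt_of_lt h2 (Finset.mem_range.1 (Finset.mem_coe.1 hc))
      (Finset.mem_range.1 (Finset.mem_coe.1 hc'))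
  exact Finset.sum_nbij (fun c => (m + c) % H) hmaps hinj
    (Finset.surjOn_of_injOn_of_card_le _ hmaps hinj le_rfl) (fun _ _ => rfl)

private theorem Assemble_tail (g : ℕ → ℝ) (hg : ∀ n, |g n| ≤ 1) (k h : ℕ) :
    |∑ i ∈ Finset.range (k + h), g i - ∑ i ∈ Finset.range k, g i| ≤ h := by
  induction h with
  | zero => simp
  | succ h ih =>
    rw [← add_assoc, Finset.sum_range_succ]
    have h1 : ∑ i ∈ Finset.range (k + h), g i + g (k + h) - ∑ i ∈ Finset.range k, g i =
        (∑ i ∈ Finset.range (k + h), g i - ∑ i ∈ Finset.range k, g i) + g (k + h) := by ring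
    rw [h1]
    refine (abs_add_le _ _).trans ?_
    push_cast
    exact add_le_add ih (hg _)

private theorem Assemble_shift (g : ℕ → ℝ) (hg : ∀ n, |g n| ≤ 1) (N h : ℕ) :
    |∑ n ∈ Finset.Icc 1 N, g (n + h) - ∑ n ∈ Finset.Icc 1 N, g n| ≤ 2 * h := by
  have e1 : ∀ f : ℕ → ℝ, ∑ n ∈ Finset.Icc 1 N, f n = ∑ n ∈ Finset.range N, f (n + 1) := by
    intro f
    rw [Finset.range_eq_Ico, Finset.sum_Ico_add' f 0 N 1]
    rfl
  have e2 : ∑ n ∈ Finset.range N, g (n + 1 + h) =
      ∑ n ∈ Finset.range (N + h), g (n + 1) - ∑ n ∈ Finset.range h, g (n + 1) := by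
    rw [add_comm N h, Finset.sum_range_add, add_sub_cancel_left]
    exact Finset.sum_congr rfl fun n _ => by congr 1; ring
  rw [e1, e1, e2]
  have h1 := Assemble_tail (fun n => g (n + 1)) (fun n => hg _) N h
  have h2 := Assemble_tail (fun n => g (n + 1)) (fun n => hg _) 0 h
  simp only [Finset.range_zero, Finset.sum_empty, sub_zero, zero_add] at h2
  have h3 : ∑ n ∈ Finset.range (N + h), g (n + 1) - ∑ n ∈ Finset.range h, g (n + 1) -
      ∑ n ∈ Finset.range N, g (n + 1) =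
      (∑ n ∈ Finset.range (N + h), g (n + 1) - ∑ n ∈ Finset.range N, g (n + 1)) -
        ∑ n ∈ Finset.range h, g (n + 1) := by ring
  rw [h3]
  refine (abs_sub _ _).trans ?_
  linarith

theorem sum_real {X : Type} (T : X → X) (u : X → ℝ) (hu1 : ∀ x, |u x| ≤ 1) {H N : ℕ} (hH : 1 ≤ H)
    {d : ℕ} {A : Set ℝ} {κ : ℝ}
    (hb : ∀ c < H, ∀ (x : ℕ → X) (P : ℕ → Polynomial ℝ),
      (∀ j, (P j).natDegree ≤ d ∧ (P j).coeff d ∈ A) →
      |∑ n ∈ Finset.Icc 1 N, mu n * blk T u H c x P n| ≤ κ * N)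
    (x : ℕ → X) (P : ℕ → Polynomial ℝ) (hP : ∀ j, (P j).natDegree ≤ d ∧ (P j).coeff d ∈ A) :
    |∑ n ∈ Finset.Icc 1 N, ∑ h ∈ Finset.range H, mu (n + h) *
      (u (T^[h] (x n)) * Real.cos (2 * Real.pi * (P n).eval (h : ℝ)))| ≤
      κ * N * H + 2 * (H : ℝ) ^ 2 := by
  set β : ℕ → ℕ → ℝ := fun n h =>
    u (T^[h] (x n)) * Real.cos (2 * Real.pi * (P n).eval (h : ℝ)) with hβ
  have hβ1 : ∀ n h, |β n h| ≤ 1 := by
    intro n h
    rw [hβ]
    show |u (T^[h] (x n)) * Real.cos (2 * Real.pi * (P n).eval (h : ℝ))| ≤ 1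
    rw [abs_mul]
    exact mul_le_one₀ (hu1 _) (abs_nonneg _) (Real.abs_cos_le_one _)
  have hg1 : ∀ h m, |mu m * β (m - h) h| ≤ 1 := by
    intro h m
    rw [abs_mul]
    exact mul_le_one₀ (abs_mu_le _) (abs_nonneg _) (hβ1 _ _)
  -- the block sums
  have hblk : ∀ c m, blk T u H c (fun j => x (H * j - c)) (fun j => P (H * j - c)) m =
      β (m - (m + c) % H) ((m + c) % H) := by
    intro c m
    have h1 : H * ((m + c) / H) - c = m - (m + c) % H := by
      have := Nat.div_add_mod (m + c) H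
      omega
    simp only [blk, hβ, h1]
  have hcomm : ∑ c ∈ Finset.range H, ∑ m ∈ Finset.Icc 1 N,
      mu m * blk T u H c (fun j => x (H * j - c)) (fun j => P (H * j - c)) m =
      ∑ h ∈ Finset.range H, ∑ m ∈ Finset.Icc 1 N, mu m * β (m - h) h := by
    rw [Finset.sum_comm, Finset.sum_comm (s := Finset.range H)]
    refine Finset.sum_congr rfl fun m _ => ?_
    simp only [hblk]
    exact Assemble_sum_mod (fun h => mu m * β (m - h) h) hH m
  have hA : |∑ h ∈ Finset.range H, ∑ m ∈ Finset.Icc 1 N, mu m * β (m - h) h| ≤ κ * N * H := by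
    rw [← hcomm]
    refine (Finset.abs_sum_le_sum_abs _ _).trans ?_
    have : ∑ c ∈ Finset.range H, κ * (N : ℝ) = κ * N * H := by
      rw [Finset.sum_const, Finset.card_range, nsmul_eq_mul]
      ring
    rw [← this]
    refine Finset.sum_le_sum fun c hc => ?_
    exact hb c (Finset.mem_range.1 hc) _ _ (fun j => hP _)
  have hB : |∑ h ∈ Finset.range H, ∑ n ∈ Finset.Icc 1 N, mu (n + h) * β n h -
      ∑ h ∈ Finset.range H, ∑ m ∈ Finset.Icc 1 N, mu m * β (m - h) h| ≤ 2 * (H : ℝ) ^ 2 := by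
    rw [← Finset.sum_sub_distrib]
    refine (Finset.abs_sum_le_sum_abs _ _).trans ?_
    have : ∑ c ∈ Finset.range H, 2 * (H : ℝ) = 2 * (H : ℝ) ^ 2 := by
      rw [Finset.sum_const, Finset.card_range, nsmul_eq_mul]
      ring
    rw [← this]
    refine Finset.sum_le_sum fun h hh => ?_
    have h1 := Assemble_shift (fun m => mu m * β (m - h) h) (hg1 h) N h
    simp only [Nat.add_sub_cancel] at h1
    refine h1.trans ?_
    have : (h : ℝ) ≤ H := by exact_mod_cast (Finset.mem_range.1 hh).le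
    linarith
  rw [Finset.sum_comm]
  have h1 : ∑ h ∈ Finset.range H, ∑ n ∈ Finset.Icc 1 N, mu (n + h) * β n h =
      ∑ h ∈ Finset.range H, ∑ m ∈ Finset.Icc 1 N, mu m * β (m - h) h +
      (∑ h ∈ Finset.range H, ∑ n ∈ Finset.Icc 1 N, mu (n + h) * β n h -
      ∑ h ∈ Finset.range H, ∑ m ∈ Finset.Icc 1 N, mu m * β (m - h) h) := by ring
  rw [h1]
  exact (abs_add_le _ _).trans (add_le_add hA hB)

theorem sum_abs {X : Type} (T : X → X) (u : X → ℝ) (hu1 : ∀ x, |u x| ≤ 1) {H N : ℕ} (hH : 1 ≤ H)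
    {d : ℕ} (hd : 1 ≤ d) {A : Set ℝ} {κ : ℝ}
    (hb : ∀ c < H, ∀ (x : ℕ → X) (P : ℕ → Polynomial ℝ),
      (∀ j, (P j).natDegree ≤ d ∧ (P j).coeff d ∈ A) →
      |∑ n ∈ Finset.Icc 1 N, mu n * blk T u H c x P n| ≤ κ * N)
    (x : ℕ → X) (P : ℕ → Polynomial ℝ) (hP : ∀ j, (P j).natDegree ≤ d ∧ (P j).coeff d ∈ A) :
    ∑ n ∈ Finset.Icc 1 N, |∑ h ∈ Finset.range H, mu (n + h) *
      (u (T^[h] (x n)) * Real.cos (2 * Real.pi * (P n).eval (h : ℝ)))| ≤
      κ * N * H + 2 * (H : ℝ) ^ 2 := by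
  classical
  set S : ℕ → ℝ := fun n => ∑ h ∈ Finset.range H, mu (n + h) *
      (u (T^[h] (x n)) * Real.cos (2 * Real.pi * (P n).eval (h : ℝ))) with hS
  set Q : ℕ → Polynomial ℝ := fun n => if S n < 0 then P n + Polynomial.C (1 / 2) else P n with hQ
  have hQP : ∀ j, (Q j).natDegree ≤ d ∧ (Q j).coeff d ∈ A := by
    intro j
    rw [hQ]
    show (if S j < 0 then P j + Polynomial.C (1 / 2) else P j).natDegree ≤ d ∧
      (if S j < 0 then P j + Polynomial.C (1 / 2) else P j).coeff d ∈ A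
    split_ifs
    · refine ⟨?_, ?_⟩
      · rw [Polynomial.natDegree_add_C]
        exact (hP j).1
      · rw [Polynomial.coeff_add, Polynomial.coeff_C_of_ne_zero (by omega), add_zero]
        exact (hP j).2
    · exact hP j
  have hSQ : ∀ n, ∑ h ∈ Finset.range H, mu (n + h) *
      (u (T^[h] (x n)) * Real.cos (2 * Real.pi * (Q n).eval (h : ℝ))) = |S n| := by
    intro n
    by_cases hn : S n < 0
    · have hq : Q n = P n + Polynomial.C (1 / 2) := by rw [hQ]; simp [hn]
      rw [abs_of_neg hn, hS, hq, ← Finset.sum_neg_distrib]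
      refine Finset.sum_congr rfl fun h _ => ?_
      have : Real.cos (2 * Real.pi * (P n + Polynomial.C (1 / 2)).eval (h : ℝ)) =
          - Real.cos (2 * Real.pi * (P n).eval (h : ℝ)) := by
        rw [Polynomial.eval_add, Polynomial.eval_C, ← Real.cos_add_pi]
        congr 1
        ring
      rw [this]
      ring
    · have hq : Q n = P n := by rw [hQ]; simp [hn]
      rw [abs_of_nonneg (not_lt.1 hn), hS, hq]
  have h1 := sum_real T u hu1 hH hb x Q hQP
  have h2 : ∑ n ∈ Finset.Icc 1 N, |S n| = ∑ n ∈ Finset.Icc 1 N, ∑ h ∈ Finset.range H,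
      mu (n + h) * (u (T^[h] (x n)) * Real.cos (2 * Real.pi * (Q n).eval (h : ℝ))) :=
    Finset.sum_congr rfl fun n _ => (hSQ n).symm
  rw [h2]
  exact (le_abs_self _).trans h1

theorem assemble {X : Type} (T : X → X) (f : X → ℂ) (hf1 : ∀ x, ‖f x‖ ≤ 1) {H N : ℕ} (hH : 1 ≤ H)
    (hN : 1 ≤ N) {d : ℕ} (hd : 1 ≤ d) {A : Set ℝ} {κ : ℝ}
    (hre : ∀ c < H, ∀ (x : ℕ → X) (P : ℕ → Polynomial ℝ),
      (∀ j, (P j).natDegree ≤ d ∧ (P j).coeff d ∈ A) →
      |∑ n ∈ Finset.Icc 1 N, mu n * blk T (fun y => (f y).re) H c x P n| ≤ κ * N)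
    (him : ∀ c < H, ∀ (x : ℕ → X) (P : ℕ → Polynomial ℝ),
      (∀ j, (P j).natDegree ≤ d ∧ (P j).coeff d ∈ A) →
      |∑ n ∈ Finset.Icc 1 N, mu n * blk T (fun y => (f y).im) H c x P n| ≤ κ * N)
    (x : ℕ → X) (P : ℕ → Polynomial ℝ) (hP : ∀ j, (P j).natDegree ≤ d ∧ (P j).coeff d ∈ A) :
    (1 / N : ℝ) * ∑ n ∈ Finset.Icc 1 N, ‖(1 / H : ℂ) * ∑ h ∈ Finset.range H,
      (ArithmeticFunction.moebius (n + h) : ℂ) * f (T^[h] (x n)) *
        Complex.exp (2 * Real.pi * Complex.I * (P n).eval (h : ℝ))‖ ≤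
      4 * κ + 8 * H / N := by
  have hHr : (0 : ℝ) < H := by exact_mod_cast hH
  have hNr : (0 : ℝ) < N := by exact_mod_cast hN
  have hPQ : ∀ j, (P j + Polynomial.C (-(1 / 4))).natDegree ≤ d ∧
      (P j + Polynomial.C (-(1 / 4))).coeff d ∈ A := by
    intro j
    refine ⟨?_, ?_⟩
    · rw [Polynomial.natDegree_add_C]
      exact (hP j).1
    · rw [Polynomial.coeff_add, Polynomial.coeff_C_of_ne_zero (by omega), add_zero]
      exact (hP j).2
  have hr1 : ∀ y, |(f y).re| ≤ 1 := fun y => (Complex.abs_re_le_norm _).trans (hf1 y)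
  have hi1 : ∀ y, |(f y).im| ≤ 1 := fun y => (Complex.abs_im_le_norm _).trans (hf1 y)
  have g1 := sum_abs T (fun y => (f y).re) hr1 hH hd hre x P hP
  have g2 := sum_abs T (fun y => (f y).re) hr1 hH hd hre x _ hPQ
  have g3 := sum_abs T (fun y => (f y).im) hi1 hH hd him x P hP
  have g4 := sum_abs T (fun y => (f y).im) hi1 hH hd him x _ hPQ
  set S1 : ℕ → ℝ := fun n => ∑ h ∈ Finset.range H, mu (n + h) *
      ((f (T^[h] (x n))).re * Real.cos (2 * Real.pi * (P n).eval (h : ℝ))) with hS1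
  set S2 : ℕ → ℝ := fun n => ∑ h ∈ Finset.range H, mu (n + h) *
      ((f (T^[h] (x n))).re *
        Real.cos (2 * Real.pi * (P n + Polynomial.C (-(1 / 4))).eval (h : ℝ))) with hS2
  set S3 : ℕ → ℝ := fun n => ∑ h ∈ Finset.range H, mu (n + h) *
      ((f (T^[h] (x n))).im * Real.cos (2 * Real.pi * (P n).eval (h : ℝ))) with hS3
  set S4 : ℕ → ℝ := fun n => ∑ h ∈ Finset.range H, mu (n + h) *
      ((f (T^[h] (x n))).im *
        Real.cos (2 * Real.pi * (P n + Polynomial.C (-(1 / 4))).eval (h : ℝ))) with hS4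
  have hsum : ∀ n, ∑ h ∈ Finset.range H,
      (ArithmeticFunction.moebius (n + h) : ℂ) * f (T^[h] (x n)) *
        Complex.exp (2 * Real.pi * Complex.I * (P n).eval (h : ℝ)) =
      (S1 n : ℂ) + Complex.I * S2 n + Complex.I * S3 n - S4 n := by
    intro n
    rw [hS1, hS2, hS3, hS4]
    push_cast
    rw [Finset.mul_sum, Finset.mul_sum, ← Finset.sum_add_distrib, ← Finset.sum_add_distrib,
      ← Finset.sum_sub_distrib]
    refine Finset.sum_congr rfl fun h _ => ?_
    have ev : (P n + Polynomial.C (-(1 / 4))).eval (h : ℝ) = (P n).eval (h : ℝ) + -(1 / 4) := by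
      rw [Polynomial.eval_add, Polynomial.eval_C]
    rw [ev]
    set t : ℝ := (P n).eval (h : ℝ) with ht
    have e1 : Complex.exp (2 * Real.pi * Complex.I * t) =
        (Real.cos (2 * Real.pi * t) : ℂ) +
          Complex.I * (Real.cos (2 * Real.pi * (t + -(1 / 4))) : ℂ) := by
      have e2 : Real.cos (2 * Real.pi * (t + -(1 / 4))) = Real.sin (2 * Real.pi * t) := by
        rw [← Real.cos_sub_pi_div_two]
        congr 1
        ring
      rw [e2]
      have e3 : (2 * Real.pi * Complex.I * t : ℂ) = ((2 * Real.pi * t : ℝ) : ℂ) * Complex.I := by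
        push_cast
        ring
      rw [e3, Complex.exp_mul_I]
      push_cast
      ring
    have e4 : f (T^[h] (x n)) = ((f (T^[h] (x n))).re : ℂ) + (f (T^[h] (x n))).im * Complex.I :=
      (Complex.re_add_im _).symm
    have e5 : (ArithmeticFunction.moebius (n + h) : ℂ) = (mu (n + h) : ℂ) := by
      unfold mu
      push_cast
      rfl
    rw [e1, e5]
    nth_rewrite 1 [e4]
    have hI : Complex.I * Complex.I = -1 := Complex.I_mul_I
    push_cast
    linear_combination ((f (T^[h] (x n))).im : ℂ) * (mu (n + h) : ℂ) *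
      (Complex.cos (2 * Real.pi * (t + -(1 / 4)))) * hI
  have hb1 : ∀ n, ‖(S1 n : ℂ) + Complex.I * S2 n + Complex.I * S3 n - S4 n‖ ≤
      |S1 n| + |S2 n| + |S3 n| + |S4 n| := by
    intro n
    calc ‖(S1 n : ℂ) + Complex.I * S2 n + Complex.I * S3 n - S4 n‖
        ≤ ‖(S1 n : ℂ)‖ + ‖Complex.I * (S2 n : ℂ)‖ + ‖Complex.I * (S3 n : ℂ)‖ + ‖(S4 n : ℂ)‖ := by
          refine (norm_sub_le _ _).trans ?_
          gcongr
          refine (norm_add_le _ _).trans ?_
          gcongr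
          exact norm_add_le _ _
      _ = |S1 n| + |S2 n| + |S3 n| + |S4 n| := by
          simp [Complex.norm_real]
  have hterm : ∀ n, ‖(1 / H : ℂ) * ∑ h ∈ Finset.range H,
      (ArithmeticFunction.moebius (n + h) : ℂ) * f (T^[h] (x n)) *
        Complex.exp (2 * Real.pi * Complex.I * (P n).eval (h : ℝ))‖ ≤
      (1 / H : ℝ) * (|S1 n| + |S2 n| + |S3 n| + |S4 n|) := by
    intro n
    rw [norm_mul, hsum n]
    have : ‖(1 / H : ℂ)‖ = 1 / H := by simp
    rw [this]
    exact mul_le_mul_of_nonneg_left (hb1 n) (by positivity)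
  have htot : ∑ n ∈ Finset.Icc 1 N, ‖(1 / H : ℂ) * ∑ h ∈ Finset.range H,
      (ArithmeticFunction.moebius (n + h) : ℂ) * f (T^[h] (x n)) *
        Complex.exp (2 * Real.pi * Complex.I * (P n).eval (h : ℝ))‖ ≤
      (1 / H : ℝ) * (4 * (κ * N * H + 2 * (H : ℝ) ^ 2)) := by
    refine (Finset.sum_le_sum fun n _ => hterm n).trans ?_
    rw [← Finset.mul_sum]
    refine mul_le_mul_of_nonneg_left ?_ (by positivity)
    rw [Finset.sum_add_distrib, Finset.sum_add_distrib, Finset.sum_add_distrib]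
    linarith
  calc (1 / N : ℝ) * ∑ n ∈ Finset.Icc 1 N, ‖(1 / H : ℂ) * ∑ h ∈ Finset.range H,
      (ArithmeticFunction.moebius (n + h) : ℂ) * f (T^[h] (x n)) *
        Complex.exp (2 * Real.pi * Complex.I * (P n).eval (h : ℝ))‖
      ≤ (1 / N : ℝ) * ((1 / H : ℝ) * (4 * (κ * N * H + 2 * (H : ℝ) ^ 2))) :=
        mul_le_mul_of_nonneg_left htot (by positivity)
    _ = 4 * κ + 8 * H / N := by
        field_simp
        ring

end Pool.Agent.Lib.MP_3e612f_nt.HU
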