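import Pool.Agent.Lib.MP_3e612f_nt.HU.Defs

/-!
HU, section Block: from a bound on windows of fixed length `K` to the correlation sums of block
sequences with long blocks.

PROOF. Put `g m = blk (p m) * blk (r m)`, `|g m| ≤ 1`, `M = N / r`. Averaging over the shifts
`n = 1, ..., K`: `|∑_{m ∈ Icc 1 M} g m| ≤ 2 K + (1/K) ∑_{m ∈ Icc 1 M} |∑_{n ∈ Icc 1 K} g (m + n)|`
(a shift by `n` changes the sum by at most `2 n`; compare `Avg_shift` in `HD/Avg.lean`).
Call `m` good if `(p (m + K) + c) / H = (p m + c) / H` and `(r (m + K) + c) / H = (r m + c) / H`.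
For good `m` and `n ≤ K` the block indices `j`, `j'` do not depend on `n`, and the positions are
`(p (m + n) + c) % H = i1 + p n` with `i1 = (p m + c) % H` (same for `r`), so with
`y = T^[i1] (x j)`, `z = T^[i2] (x j')` (`Function.iterate_add_apply`) the inner sum is the one of
`hwin`, hence `≤ κ K`. For bad `m` it is `≤ K`. Number of bad `m`: at most
`∑_{m ∈ Icc 1 M} (φ (m + K) - φ m)` for `φ m = (p m + c) / H` plus the same for `r`; this telescopes
(`φ` monotone): `≤ K * φ (M + K)`, and `φ (M + K) ≤ r (M + K) / H + 1 ≤ (N + r K) / H + 1` because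
`c < H`. Total: `2 K + κ M + 2 K ((N + r K) / H + 1) ≤ 2 κ N` if `H ≥ H0 = ⌈4 K / κ⌉` and `N` is large
(in terms of `K`, `r`, `κ`).
-/

set_option autoImplicit false

namespace Pool.Agent.Lib.MP_3e612f_nt.HU

open Pool.Agent.Lib.MP_3e612f_nt.HD

private theorem Block_shift_one (f : ℕ → ℝ) (hf : ∀ n, |f n| ≤ 1) (N a : ℕ) :
    |∑ n ∈ Finset.Icc 1 N, f (n + a) - ∑ n ∈ Finset.Icc 1 N, f (n + (a + 1))| ≤ 2 := by
  have h : ∀ M : ℕ, ∑ n ∈ Finset.Icc 1 M, f (n + a) - ∑ n ∈ Finset.Icc 1 M, f (n + (a + 1)) =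
      f (1 + a) - f (M + (a + 1)) := by
    intro M
    induction M with
    | zero => simp [add_comm]
    | succ M ih =>
      rw [Finset.sum_Icc_succ_top (by omega), Finset.sum_Icc_succ_top (by omega)]
      have e1 : M + 1 + a = M + (a + 1) := by ring
      rw [e1]
      linear_combination ih
  rw [h N]
  have h1 := abs_le.1 (hf (1 + a))
  have h2 := abs_le.1 (hf (N + (a + 1)))
  rw [abs_le]
  constructor <;> linarith [h1.1, h1.2, h2.1, h2.2]

private theorem Block_shift (f : ℕ → ℝ) (hf : ∀ n, |f n| ≤ 1) (N a : ℕ) :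
    |∑ n ∈ Finset.Icc 1 N, f n - ∑ n ∈ Finset.Icc 1 N, f (n + a)| ≤ 2 * a := by
  induction a with
  | zero => simp
  | succ a ih =>
    have h := Block_shift_one f hf N a
    push_cast
    have h1 := abs_le.1 h
    have h2 := abs_le.1 ih
    rw [abs_le]
    constructor <;> linarith [h1.1, h1.2, h2.1, h2.2]

private theorem Block_tele (φ : ℕ → ℝ) (hφ : Monotone φ) (h0 : ∀ n, 0 ≤ φ n) (M K : ℕ) :
    ∑ m ∈ Finset.Icc 1 M, (φ (m + K) - φ m) ≤ K * φ (M + K) := by
  induction K with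
  | zero => simp
  | succ K ih =>
    have h1 : ∑ m ∈ Finset.Icc 1 M, (φ (m + (K + 1)) - φ (m + K)) ≤ φ (M + (K + 1)) := by
      have h : ∀ M : ℕ, ∑ m ∈ Finset.Icc 1 M, (φ (m + (K + 1)) - φ (m + K)) =
          φ (M + (K + 1)) - φ (1 + K) := by
        intro M
        induction M with
        | zero => simp [add_comm]
        | succ M ih =>
          rw [Finset.sum_Icc_succ_top (by omega), ih]
          have e1 : M + 1 + K = M + (K + 1) := by ring
          rw [e1]
          ring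
      rw [h M]
      linarith [h0 (1 + K)]
    have h2 : ∑ m ∈ Finset.Icc 1 M, (φ (m + (K + 1)) - φ m) =
        ∑ m ∈ Finset.Icc 1 M, (φ (m + (K + 1)) - φ (m + K)) +
          ∑ m ∈ Finset.Icc 1 M, (φ (m + K) - φ m) := by
      rw [← Finset.sum_add_distrib]
      refine Finset.sum_congr rfl fun m _ => ?_
      ring
    have h3 : φ (M + K) ≤ φ (M + (K + 1)) := hφ (by omega)
    have h4 : (K : ℝ) * φ (M + K) ≤ K * φ (M + (K + 1)) :=
      mul_le_mul_of_nonneg_left h3 (Nat.cast_nonneg _)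
    rw [h2]
    push_cast
    linarith

private theorem Block_const {p c H m n K : ℕ} (hn : n ≤ K)
    (h : (p * (m + K) + c) / H = (p * m + c) / H) :
    (p * (m + n) + c) / H = (p * m + c) / H ∧
      (p * (m + n) + c) % H = (p * m + c) % H + p * n := by
  have h1 : (p * m + c) / H ≤ (p * (m + n) + c) / H := by
    apply Nat.div_le_div_right
    have := Nat.mul_le_mul_left p (Nat.le_add_right m n)
    omega
  have h2 : (p * (m + n) + c) / H ≤ (p * (m + K) + c) / H := by
    apply Nat.div_le_div_right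
    have := Nat.mul_le_mul_left p (Nat.add_le_add_left hn m)
    omega
  have h3 : (p * (m + n) + c) / H = (p * m + c) / H := by omega
  refine ⟨h3, ?_⟩
  have e1 := Nat.div_add_mod (p * (m + n) + c) H
  have e2 := Nat.div_add_mod (p * m + c) H
  rw [h3] at e1
  have e3 : p * (m + n) = p * m + p * n := Nat.mul_add _ _ _
  omega

private theorem Block_blk {X : Type} (T : X → X) (u : X → ℝ) {H c : ℕ} (x : ℕ → X)
    (P : ℕ → Polynomial ℝ) {p m n K : ℕ} (hn : n ≤ K)
    (h : (p * (m + K) + c) / H = (p * m + c) / H) :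
    blk T u H c x P (p * (m + n)) =
      u (T^[p * n] (T^[(p * m + c) % H] (x ((p * m + c) / H)))) *
        Real.cos (2 * Real.pi * (P ((p * m + c) / H)).eval (((p * m + c) % H + p * n : ℕ) : ℝ)) := by
  obtain ⟨h1, h2⟩ := Block_const hn h
  unfold blk
  rw [h1, h2, ← Function.iterate_add_apply, Nat.add_comm (p * n)]

theorem block_pair {X : Type} (T : X → X) (u : X → ℝ) (hu1 : ∀ x, |u x| ≤ 1)
    {p r : ℕ} (hp : 1 ≤ p) (hpr : p < r) {κ : ℝ} (hκ : 0 < κ) {d : ℕ} {A : Set ℝ} {K : ℕ} (hK : 1 ≤ K)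
    (hwin : ∀ (y z : X) (P1 P2 : Polynomial ℝ), P1.natDegree ≤ d → P1.coeff d ∈ A →
      P2.natDegree ≤ d → P2.coeff d ∈ A → ∀ i1 i2 : ℕ,
      |∑ n ∈ Finset.Icc 1 K,
        (u (T^[p * n] y) * Real.cos (2 * Real.pi * P1.eval ((i1 + p * n : ℕ) : ℝ))) *
        (u (T^[r * n] z) * Real.cos (2 * Real.pi * P2.eval ((i2 + r * n : ℕ) : ℝ)))| ≤ κ * K) :
    ∃ H0 : ℕ, ∀ H ≥ H0, ∃ N0 : ℕ, ∀ N ≥ N0, ∀ c < H, ∀ (x : ℕ → X) (P : ℕ → Polynomial ℝ),
      (∀ j, (P j).natDegree ≤ d ∧ (P j).coeff d ∈ A) →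
      |∑ m ∈ Finset.Icc 1 (N / r), blk T u H c x P (p * m) * blk T u H c x P (r * m)| ≤
        2 * κ * N := by
  have hK0 : (0 : ℝ) < K := by exact_mod_cast hK
  have hr0 : 0 < r := by omega
  refine ⟨⌈4 * K / κ⌉₊, fun H hH => ⟨⌈8 * K / κ + r * K⌉₊, fun N hN c hc x P hP => ?_⟩⟩
  have hH1 : 4 * K / κ ≤ (H : ℝ) := Nat.ceil_le.1 hH
  have hN1 : 8 * K / κ + r * K ≤ (N : ℝ) := Nat.ceil_le.1 hN
  have hHpos : (0 : ℝ) < H := by
    have : 0 < H := by omega
    exact_mod_cast this
  set M := N / r with hM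
  set g : ℕ → ℝ := fun m => blk T u H c x P (p * m) * blk T u H c x P (r * m) with hg
  have hg1 : ∀ m, |g m| ≤ 1 := by
    intro m
    rw [hg]
    simp only [abs_mul]
    exact mul_le_one₀ (abs_blk_le T u hu1 H c x P _) (abs_nonneg _) (abs_blk_le T u hu1 H c x P _)
  set φ : ℕ → ℕ → ℝ := fun q m => (((q * m + c) / H : ℕ) : ℝ) with hφ
  have hφmono : ∀ q, Monotone (φ q) := by
    intro q a b hab
    rw [hφ]
    simp only
    have h1 : (q * a + c) / H ≤ (q * b + c) / H := by
      apply Nat.div_le_div_right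
      have := Nat.mul_le_mul_left q hab
      omega
    exact_mod_cast h1
  have hφ0 : ∀ q m, 0 ≤ φ q m := fun q m => Nat.cast_nonneg _
  -- one window
  have hwin' : ∀ m, |∑ n ∈ Finset.Icc 1 K, g (m + n)| ≤
      κ * K + K * ((φ p (m + K) - φ p m) + (φ r (m + K) - φ r m)) := by
    intro m
    have d1 : 0 ≤ φ p (m + K) - φ p m := sub_nonneg.2 (hφmono p (by omega))
    have d2 : 0 ≤ φ r (m + K) - φ r m := sub_nonneg.2 (hφmono r (by omega))
    by_cases hgood : (p * (m + K) + c) / H = (p * m + c) / H ∧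
        (r * (m + K) + c) / H = (r * m + c) / H
    · obtain ⟨g1, g2⟩ := hgood
      have e1 : ∑ n ∈ Finset.Icc 1 K, g (m + n) = ∑ n ∈ Finset.Icc 1 K,
        (u (T^[p * n] (T^[(p * m + c) % H] (x ((p * m + c) / H)))) *
          Real.cos (2 * Real.pi * (P ((p * m + c) / H)).eval
            (((p * m + c) % H + p * n : ℕ) : ℝ))) *
        (u (T^[r * n] (T^[(r * m + c) % H] (x ((r * m + c) / H)))) *
          Real.cos (2 * Real.pi * (P ((r * m + c) / H)).eval
            (((r * m + c) % H + r * n : ℕ) : ℝ))) := by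
        refine Finset.sum_congr rfl fun n hn => ?_
        have hn' := (Finset.mem_Icc.1 hn).2
        rw [hg]
        simp only
        rw [Block_blk T u x P hn' g1, Block_blk T u x P hn' g2]
      rw [e1]
      have h1 := hwin (T^[(p * m + c) % H] (x ((p * m + c) / H)))
        (T^[(r * m + c) % H] (x ((r * m + c) / H))) (P ((p * m + c) / H)) (P ((r * m + c) / H))
        (hP _).1 (hP _).2 (hP _).1 (hP _).2 ((p * m + c) % H) ((r * m + c) % H)
      have h2 : 0 ≤ (K : ℝ) * ((φ p (m + K) - φ p m) + (φ r (m + K) - φ r m)) := by positivity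
      linarith
    · have h1 : 1 ≤ (φ p (m + K) - φ p m) + (φ r (m + K) - φ r m) := by
        have i1 : (p * m + c) / H ≤ (p * (m + K) + c) / H := by
          apply Nat.div_le_div_right
          have := Nat.mul_le_mul_left p (Nat.le_add_right m K)
          omega
        have i2 : (r * m + c) / H ≤ (r * (m + K) + c) / H := by
          apply Nat.div_le_div_right
          have := Nat.mul_le_mul_left r (Nat.le_add_right m K)
          omega
        have i3 : (p * m + c) / H + (r * m + c) / H + 1 ≤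
            (p * (m + K) + c) / H + (r * (m + K) + c) / H := by
          by_contra hlt
          exact hgood ⟨by omega, by omega⟩
        have i4 : (((p * m + c) / H : ℕ) : ℝ) + (((r * m + c) / H : ℕ) : ℝ) + 1 ≤
            (((p * (m + K) + c) / H : ℕ) : ℝ) + (((r * (m + K) + c) / H : ℕ) : ℝ) := by
          exact_mod_cast i3
        simp only [hφ]
        linarith
      have h2 : |∑ n ∈ Finset.Icc 1 K, g (m + n)| ≤ K := by
        refine (Finset.abs_sum_le_sum_abs _ _).trans ?_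
        refine (Finset.sum_le_sum fun n _ => hg1 (m + n)).trans ?_
        simp
      have h3 : (K : ℝ) * 1 ≤ K * ((φ p (m + K) - φ p m) + (φ r (m + K) - φ r m)) :=
        mul_le_mul_of_nonneg_left h1 hK0.le
      have h4 : 0 ≤ κ * K := by positivity
      linarith
  -- the average
  have havg : (K : ℝ) * |∑ m ∈ Finset.Icc 1 M, g m| ≤
      K * (2 * K) + ∑ m ∈ Finset.Icc 1 M, |∑ n ∈ Finset.Icc 1 K, g (m + n)| := by
    have e1 : (K : ℝ) * ∑ m ∈ Finset.Icc 1 M, g m =
        ∑ n ∈ Finset.Icc 1 K, (∑ m ∈ Finset.Icc 1 M, g m - ∑ m ∈ Finset.Icc 1 M, g (m + n)) +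
          ∑ m ∈ Finset.Icc 1 M, ∑ n ∈ Finset.Icc 1 K, g (m + n) := by
      rw [Finset.sum_sub_distrib, Finset.sum_const, Nat.card_Icc, nsmul_eq_mul,
        Finset.sum_comm (s := Finset.Icc 1 M)]
      simp
    have e2 : (K : ℝ) * |∑ m ∈ Finset.Icc 1 M, g m| = |(K : ℝ) * ∑ m ∈ Finset.Icc 1 M, g m| := by
      rw [abs_mul, abs_of_pos hK0]
    rw [e2, e1]
    refine (abs_add_le _ _).trans (add_le_add ?_ (Finset.abs_sum_le_sum_abs _ _))
    refine (Finset.abs_sum_le_sum_abs _ _).trans ?_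
    have h1 : ∀ n ∈ Finset.Icc 1 K,
        |∑ m ∈ Finset.Icc 1 M, g m - ∑ m ∈ Finset.Icc 1 M, g (m + n)| ≤ 2 * (K : ℝ) := by
      intro n hn
      have hn' : (n : ℝ) ≤ K := by exact_mod_cast (Finset.mem_Icc.1 hn).2
      have := Block_shift g hg1 M n
      linarith
    refine (Finset.sum_le_sum h1).trans ?_
    rw [Finset.sum_const, Nat.card_Icc, nsmul_eq_mul]
    simp
  have hsum : ∑ m ∈ Finset.Icc 1 M, |∑ n ∈ Finset.Icc 1 K, g (m + n)| ≤
      κ * K * M + K * (K * φ p (M + K) + K * φ r (M + K)) := by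
    refine (Finset.sum_le_sum fun m _ => hwin' m).trans ?_
    rw [Finset.sum_add_distrib, Finset.sum_const, Nat.card_Icc, nsmul_eq_mul, ← Finset.mul_sum,
      Finset.sum_add_distrib]
    have h1 := Block_tele (φ p) (hφmono p) (hφ0 p) M K
    have h2 := Block_tele (φ r) (hφmono r) (hφ0 r) M K
    have h3 := mul_le_mul_of_nonneg_left (add_le_add h1 h2) hK0.le
    have e1 : ((M + 1 - 1 : ℕ) : ℝ) = M := by simp
    rw [e1]
    linarith
  have hφb : ∀ q ≤ r, φ q (M + K) ≤ (N + r * K) / H + 1 := by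
    intro q hq
    have h1 : φ q (M + K) ≤ ((q * (M + K) + c : ℕ) : ℝ) / H := Nat.cast_div_le
    have h2 : q * (M + K) + c ≤ N + r * K + H := by
      have i1 : q * (M + K) ≤ r * (M + K) := Nat.mul_le_mul_right _ hq
      have i2 : r * M ≤ N := Nat.mul_div_le N r
      have i3 : r * (M + K) = r * M + r * K := Nat.mul_add _ _ _
      omega
    have h3 : ((q * (M + K) + c : ℕ) : ℝ) ≤ N + r * K + H := by exact_mod_cast h2
    calc φ q (M + K) ≤ ((q * (M + K) + c : ℕ) : ℝ) / H := h1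
      _ ≤ (N + r * K + H) / H := by gcongr
      _ = (N + r * K) / H + 1 := by
        rw [add_div, div_self hHpos.ne']
  have hfin : |∑ m ∈ Finset.Icc 1 M, g m| ≤ 2 * K + κ * M + K * φ p (M + K) + K * φ r (M + K) := by
    have h1 := havg.trans (add_le_add_right hsum _)
    have h2 : (K : ℝ) * |∑ m ∈ Finset.Icc 1 M, g m| ≤
        K * (2 * K + κ * M + K * φ p (M + K) + K * φ r (M + K)) := by
      refine h1.trans (le_of_eq ?_)
      ring
    exact le_of_mul_le_mul_left h2 hK0
  have hMN : (M : ℝ) ≤ N := by exact_mod_cast Nat.div_le_self N r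
  have hκM : κ * M ≤ κ * N := mul_le_mul_of_nonneg_left hMN hκ.le
  have b1 := mul_le_mul_of_nonneg_left (hφb p hpr.le) hK0.le
  have b2 := mul_le_mul_of_nonneg_left (hφb r le_rfl) hK0.le
  have b3 : (K : ℝ) * ((N + r * K) / H) ≤ κ / 4 * (N + r * K) := by
    rw [← mul_div_assoc, div_le_iff₀ hHpos]
    have h1 : (K : ℝ) ≤ κ / 4 * H := by
      rw [div_le_iff₀ hκ] at hH1
      linarith
    have h2 : (0 : ℝ) ≤ N + r * K := by positivity
    nlinarith
  have b4 : 8 * (K : ℝ) + κ * (r * K) ≤ κ * N := by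
    have h1 := mul_le_mul_of_nonneg_left hN1 hκ.le
    have h2 : κ * (8 * K / κ + r * K) = 8 * K + κ * (r * K) := by
      field_simp
    linarith
  linarith

end Pool.Agent.Lib.MP_3e612f_nt.HU
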