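import Pool.Agent.Lib.MP_3e612f_nt.HD.Coef

/-!
HU, section CoefU: degree and top coefficient of the polynomial of differences.
-/

set_option autoImplicit false

namespace Pool.Agent.Lib.MP_3e612f_nt.HU

open Pool.Agent.Lib.MP_3e612f_nt.HD

/-- The coefficients of a Taylor shift. -/
theorem CoefU_taylor (R : Polynomial ℝ) {d : ℕ} (hR : R.natDegree ≤ d) (a : ℝ) (m : ℕ) :
    (Polynomial.taylor a R).coeff m =
      ∑ t ∈ Finset.range (d + 1), ((t.choose m : ℕ) : ℝ) * R.coeff t * a ^ (t - m) := by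
  rw [Polynomial.taylor_coeff, Polynomial.hasseDeriv_apply]
  rw [Polynomial.sum_over_range' _ (fun n => by simp) (d + 1) (by omega),
    Polynomial.eval_finset_sum]
  refine Finset.sum_congr rfl fun t _ => ?_
  rw [Polynomial.eval_monomial]

theorem CoefU_shift (R : Polynomial ℝ) {d : ℕ} (hR : R.natDegree ≤ d) {s : ℕ} (x y : Fin s → ℕ)
    (m : ℕ) : (shiftPoly R x y).coeff m =
      ∑ t ∈ Finset.range (d + 1), ((t.choose m : ℕ) : ℝ) * R.coeff t *
        (((∑ i, (x i : ℤ) ^ (t - m) - ∑ i, (y i : ℤ) ^ (t - m) : ℤ)) : ℝ) := by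
  unfold shiftPoly
  rw [Polynomial.finset_sum_coeff]
  simp only [Polynomial.coeff_sub, CoefU_taylor R hR]
  rw [Finset.sum_congr rfl (fun i _ => (Finset.sum_sub_distrib _ _).symm), Finset.sum_comm]
  refine Finset.sum_congr rfl fun t _ => ?_
  push_cast
  rw [← Finset.sum_sub_distrib, Finset.mul_sum]
  refine Finset.sum_congr rfl fun i _ => ?_
  ring

theorem shiftPoly_top {R : Polynomial ℝ} {d : ℕ} (hR : R.natDegree ≤ d) {s : ℕ} {x y : Fin s → ℕ}
    {j : ℕ} (hj : j ≤ d) (hlow : ∀ t < j, ∑ i, x i ^ t = ∑ i, y i ^ t) :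
    (shiftPoly R x y).natDegree ≤ d - j ∧ (shiftPoly R x y).coeff (d - j) =
      (((d.choose (d - j) : ℕ) : ℤ) * (∑ i, (x i : ℤ) ^ j - ∑ i, (y i : ℤ) ^ j) : ℤ) *
        R.coeff d := by
  have hσ0 : ∀ u < j, ∑ i, (x i : ℤ) ^ u - ∑ i, (y i : ℤ) ^ u = 0 := by
    intro u hu
    have h1 := hlow u hu
    have h2 : ∑ i, (x i : ℤ) ^ u = ∑ i, (y i : ℤ) ^ u := by exact_mod_cast h1
    rw [h2, sub_self]
  constructor
  · rw [Polynomial.natDegree_le_iff_coeff_eq_zero]
    intro m hm
    rw [CoefU_shift R hR]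
    refine Finset.sum_eq_zero fun t ht => ?_
    rw [Finset.mem_range] at ht
    by_cases hle : t < m
    · rw [Nat.choose_eq_zero_of_lt hle]
      simp
    · rw [hσ0 (t - m) (by omega)]
      simp
  · rw [CoefU_shift R hR, Finset.sum_range_succ, Finset.sum_eq_zero, zero_add]
    · have : d - (d - j) = j := by omega
      rw [this]
      push_cast
      ring
    · intro t ht
      rw [Finset.mem_range] at ht
      by_cases hle : t < d - j
      · rw [Nat.choose_eq_zero_of_lt hle]
        simp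
      · rw [hσ0 (t - (d - j)) (by omega)]
        simp

/-- composition with `r X + i` -/
theorem CoefU_comp {P : Polynomial ℝ} {d : ℕ} (hP : P.natDegree ≤ d) (r i : ℕ) :
    (P.comp (Polynomial.C (r : ℝ) * Polynomial.X + Polynomial.C (i : ℝ))).natDegree ≤ d ∧
    (P.comp (Polynomial.C (r : ℝ) * Polynomial.X + Polynomial.C (i : ℝ))).coeff d =
      P.coeff d * (r : ℝ) ^ d := by
  constructor
  · refine Polynomial.natDegree_comp_le.trans ?_
    calc P.natDegree * _ ≤ d * 1 := Nat.mul_le_mul hP Polynomial.natDegree_linear_le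
      _ = d := mul_one d
  · have h1 : P.comp (Polynomial.C (r : ℝ) * Polynomial.X + Polynomial.C (i : ℝ)) =
        (Polynomial.taylor (i : ℝ) P).comp (Polynomial.C (r : ℝ) * Polynomial.X) := by
      rw [Polynomial.taylor_apply, Polynomial.comp_assoc]
      simp
    rw [h1, Polynomial.comp_C_mul_X_coeff, CoefU_taylor P hP, Finset.sum_range_succ,
      Finset.sum_eq_zero, zero_add]
    · simp
    · intro t ht
      rw [Finset.mem_range] at ht
      rw [Nat.choose_eq_zero_of_lt ht]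
      simp

/-- the phases of the criterion of Kátai: `P1 (p X + i1) + c P2 (r X + i2)` -/
theorem pair_top {P1 P2 : Polynomial ℝ} {d : ℕ} (h1 : P1.natDegree ≤ d)
    (h2 : P2.natDegree ≤ d) (p r i1 i2 : ℕ) (c : ℝ) :
    (P1.comp (Polynomial.C (p : ℝ) * Polynomial.X + Polynomial.C (i1 : ℝ)) +
      Polynomial.C c *
        P2.comp (Polynomial.C (r : ℝ) * Polynomial.X + Polynomial.C (i2 : ℝ))).natDegree ≤ d ∧
    (P1.comp (Polynomial.C (p : ℝ) * Polynomial.X + Polynomial.C (i1 : ℝ)) +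
      Polynomial.C c *
        P2.comp (Polynomial.C (r : ℝ) * Polynomial.X + Polynomial.C (i2 : ℝ))).coeff d =
      (p : ℝ) ^ d * P1.coeff d + c * ((r : ℝ) ^ d * P2.coeff d) := by
  constructor
  · refine (Polynomial.natDegree_add_le _ _).trans (max_le (CoefU_comp h1 p i1).1 ?_)
    exact (Polynomial.natDegree_C_mul_le _ _).trans (CoefU_comp h2 r i2).1
  · rw [Polynomial.coeff_add, Polynomial.coeff_C_mul, (CoefU_comp h1 p i1).2,
      (CoefU_comp h2 r i2).2]
    ring

end Pool.Agent.Lib.MP_3e612f_nt.HU
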