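import Pool.Agent.Lib.MP_3e612f_nt.HD.Defs
import Pool.Agent.Lib.MP_3e612f_nt.Incr

/-!
HU (short intervals, uniform version of HD): definitions.
-/

set_option autoImplicit false

namespace Pool.Agent.Lib.MP_3e612f_nt.HU

/-- the block sequence with block length `H` and offset `c`: on the block
`{m | (m + c) / H = j}` it is the orbit of `x j` times the cosine of the polynomial `P j` of the
position `(m + c) % H` in the block -/
noncomputable def blk {X : Type} (T : X → X) (u : X → ℝ) (H c : ℕ) (x : ℕ → X)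
    (P : ℕ → Polynomial ℝ) (m : ℕ) : ℝ :=
  u (T^[(m + c) % H] (x ((m + c) / H))) *
    Real.cos (2 * Real.pi * (P ((m + c) / H)).eval (((m + c) % H : ℕ) : ℝ))

theorem abs_blk_le {X : Type} (T : X → X) (u : X → ℝ) (hu1 : ∀ x, |u x| ≤ 1) (H c : ℕ)
    (x : ℕ → X) (P : ℕ → Polynomial ℝ) (m : ℕ) : |blk T u H c x P m| ≤ 1 := by
  unfold blk
  rw [abs_mul]
  exact mul_le_one₀ (hu1 _) (abs_nonneg _) (Real.abs_cos_le_one _)

end Pool.Agent.Lib.MP_3e612f_nt.HU
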