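import Pool.Agent.Lib.MP_3e612f_nt.HU.MainU
import Pool.Agent.Lib.MP_3e612f_nt.HU.Assemble
import Pool.Agent.Lib.MP_3e612f_nt.HD.Cover

/-!
HU, section FinalU.
-/

set_option autoImplicit false

namespace Pool.Agent.Lib.MP_3e612f_nt.HU

open Pool.Agent.Lib.MP_3e612f_nt Pool.Agent.Lib.MP_3e612f_nt.HD

/-- small entropy gives the numerical condition -/
theorem thr_entropy {r0 : ℕ} (hr0 : 1 ≤ r0) {τ : ℝ} (hτ : 0 < τ) : ∃ h : ℝ, 0 < h ∧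
    ∀ (X : Type) [MetricSpace X] [CompactSpace X] (T : X → X), Continuous T →
      Dynamics.coverEntropy T Set.univ < (h : EReal) → ∀ δ : ℝ, 0 < δ →
      ∃ s : ℕ, 1 ≤ s ∧ ∃ L : ℕ, r0 ≤ L ∧ ∃ F : Finset X, Cov T L δ F ∧
        (F.card : ℝ) ^ 2 * (s.factorial * (2 * r0 : ℝ) ^ s) ≤ τ ^ (2 * s) / 2 * (L : ℝ) ^ s := by
  have hr0' : (0 : ℝ) < r0 := by exact_mod_cast hr0
  obtain ⟨K, hK⟩ := exists_nat_ge (max 1 (Real.exp 1 * (2 * r0) / (τ ^ 2 / 2)))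
  have hK1 : (1 : ℝ) ≤ K := (le_max_left _ _).trans hK
  have hK0 : (0 : ℝ) < K := by linarith
  have hK2 : Real.exp 1 * (2 * r0) ≤ τ ^ 2 / 2 * K := by
    have := (le_max_right _ _).trans hK
    rw [div_le_iff₀ (by positivity)] at this
    linarith
  refine ⟨1 / (2 * K), by positivity, ?_⟩
  intro X _ _ T hT hent δ hδ
  obtain ⟨L0, hcover⟩ := cover hT hent hδ
  set s : ℕ := max L0 r0 with hs
  have hs1 : 1 ≤ s := hr0.trans (le_max_right _ _)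
  have hK1' : 1 ≤ K := by exact_mod_cast hK1
  have hsL : s ≤ K * s := Nat.le_mul_of_pos_left s hK1'
  obtain ⟨F, hF, hcov⟩ := hcover (K * s) ((le_max_left _ _).trans hsL)
  refine ⟨s, hs1, K * s, (le_max_right _ _).trans hsL, F, hcov, ?_⟩
  have hsr : (1 : ℝ) ≤ s := by exact_mod_cast hs1
  have h1 : (F.card : ℝ) ^ 2 ≤ Real.exp 1 ^ s := by
    have h2 : Real.exp (1 / (2 * K) * ((K * s : ℕ) : ℝ)) = Real.exp (s / 2) := by
      congr 1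
      push_cast
      field_simp
    rw [h2] at hF
    calc (F.card : ℝ) ^ 2 ≤ Real.exp (s / 2) ^ 2 := by gcongr
      _ = Real.exp 1 ^ s := by
        rw [← Real.exp_nat_mul, ← Real.exp_nat_mul]
        congr 1
        push_cast
        ring
  have h3 : (s.factorial : ℝ) ≤ (s : ℝ) ^ s := by exact_mod_cast Nat.factorial_le_pow s
  calc (F.card : ℝ) ^ 2 * (s.factorial * (2 * r0 : ℝ) ^ s)
      ≤ Real.exp 1 ^ s * ((s : ℝ) ^ s * (2 * r0 : ℝ) ^ s) := by gcongr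
    _ = (Real.exp 1 * (2 * r0)) ^ s * (s : ℝ) ^ s := by
        rw [mul_pow]; ring
    _ ≤ (τ ^ 2 / 2 * K) ^ s * (s : ℝ) ^ s := by gcongr
    _ = τ ^ (2 * s) * (1 / 2) ^ s * (K * s : ℝ) ^ s := by
        rw [pow_mul, mul_pow, mul_pow, div_eq_mul_one_div, mul_pow]
        ring
    _ ≤ τ ^ (2 * s) * (1 / 2) ^ 1 * (K * s : ℝ) ^ s := by
        have : ((1 : ℝ) / 2) ^ s ≤ (1 / 2) ^ 1 :=
          pow_le_pow_of_le_one (by norm_num) (by norm_num) hs1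
        gcongr
    _ = τ ^ (2 * s) / 2 * ((K * s : ℕ) : ℝ) ^ s := by
        push_cast
        ring

/-- polynomial complexity gives the numerical condition -/
theorem thr_poly {r0 : ℕ} (hr0 : 1 ≤ r0) {τ : ℝ} (hτ : 0 < τ) {X : Type} [MetricSpace X]
    [Nonempty X] (T : X → X) {k : ℝ} (hk : 0 < k)
    (hc : ∀ δ : ℝ, 0 < δ → ∀ κ : ℝ, 0 < κ → ∃ L : ℕ, 1 ≤ L ∧ ∃ F : Finset X,
      (F.card : ℝ) ≤ κ * (L : ℝ) ^ k ∧
        ∀ x : X, ∃ y ∈ F, ∑ a ∈ Finset.range L, dist (T^[a] x) (T^[a] y) ≤ δ * L)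
    {δ : ℝ} (hδ : 0 < δ) : ∃ L : ℕ, r0 ≤ L ∧ ∃ F : Finset X, Cov T L δ F ∧
        (F.card : ℝ) ^ 2 * ((⌈2 * k⌉₊).factorial * (2 * r0 : ℝ) ^ ⌈2 * k⌉₊) ≤
          τ ^ (2 * ⌈2 * k⌉₊) / 2 * (L : ℝ) ^ ⌈2 * k⌉₊ := by
  have hr0' : (0 : ℝ) < r0 := by exact_mod_cast hr0
  set s : ℕ := ⌈2 * k⌉₊ with hs
  set c : ℝ := τ ^ (2 * s) / 2 / (s.factorial * (2 * r0 : ℝ) ^ s) with hcdef
  have hc0 : 0 < c := by positivity
  set κ : ℝ := min (1 / (2 * (r0 : ℝ) ^ k)) (min 1 c) with hκ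
  have hκ0 : 0 < κ := by positivity
  obtain ⟨L, hL, F, hF, hcov⟩ := hc δ hδ κ hκ0
  have hLr : (1 : ℝ) ≤ L := by exact_mod_cast hL
  have hLr0 : r0 ≤ L := by
    by_contra hcon
    have hlt : (L : ℝ) ≤ r0 := by exact_mod_cast (not_le.1 hcon).le
    have h1 : (1 : ℝ) ≤ F.card := by
      obtain ⟨y, hy, -⟩ := hcov (Classical.arbitrary X)
      exact_mod_cast Finset.card_pos.2 ⟨y, hy⟩
    have h2 : κ * (L : ℝ) ^ k ≤ 1 / (2 * (r0 : ℝ) ^ k) * (r0 : ℝ) ^ k := by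
      have := Real.rpow_le_rpow (by positivity) hlt hk.le
      have h3 : κ ≤ 1 / (2 * (r0 : ℝ) ^ k) := min_le_left _ _
      gcongr
    have h4 : 1 / (2 * (r0 : ℝ) ^ k) * (r0 : ℝ) ^ k = 1 / 2 := by
      have : (0 : ℝ) < (r0 : ℝ) ^ k := Real.rpow_pos_of_pos hr0' k
      field_simp
    linarith
  refine ⟨L, hLr0, F, hcov, ?_⟩
  have h1 : (F.card : ℝ) ^ 2 ≤ κ * (L : ℝ) ^ s := by
    have hκ1 : κ ≤ 1 := (min_le_right _ _).trans (min_le_left _ _)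
    have h2 : ((L : ℝ) ^ k) ^ 2 ≤ (L : ℝ) ^ s := by
      rw [← Real.rpow_natCast, ← Real.rpow_mul (by positivity), ← Real.rpow_natCast]
      refine Real.rpow_le_rpow_of_exponent_le hLr ?_
      have := Nat.le_ceil (2 * k)
      push_cast
      linarith
    calc (F.card : ℝ) ^ 2 ≤ (κ * (L : ℝ) ^ k) ^ 2 := by gcongr
      _ = κ * (κ * ((L : ℝ) ^ k) ^ 2) := by ring
      _ ≤ κ * (1 * (L : ℝ) ^ s) := by gcongr
      _ = κ * (L : ℝ) ^ s := by ring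
  have h3 : κ ≤ c := (min_le_right _ _).trans (min_le_right _ _)
  calc (F.card : ℝ) ^ 2 * (s.factorial * (2 * r0 : ℝ) ^ s)
      ≤ (κ * (L : ℝ) ^ s) * (s.factorial * (2 * r0 : ℝ) ^ s) := by gcongr
    _ ≤ (c * (L : ℝ) ^ s) * (s.factorial * (2 * r0 : ℝ) ^ s) := by gcongr
    _ = τ ^ (2 * s) / 2 * (L : ℝ) ^ s := by
      rw [hcdef]
      field_simp

/-- the main theorem from the numerical condition -/
theorem main_short {ε : ℝ} (hε : 0 < ε) : ∃ (r0 : ℕ) (τ : ℝ), 1 ≤ r0 ∧ 0 < τ ∧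
    ∀ (X : Type) [MetricSpace X] [CompactSpace X] (T : X → X) (f : X → ℂ), Continuous f →
      (∀ x, ‖f x‖ ≤ 1) → ∃ δ : ℝ, 0 < δ ∧ ∀ s : ℕ, 1 ≤ s → ∀ L : ℕ, r0 ≤ L →
      ∀ F : Finset X, Cov T L δ F →
      (F.card : ℝ) ^ 2 * (s.factorial * (2 * r0 : ℝ) ^ s) ≤ τ ^ (2 * s) / 2 * (L : ℝ) ^ s →
      ∀ d : ℕ, s + 1 ≤ d → ∀ A : Set ℝ, IsCompact A →
      (∀ p r : ℕ, p.Prime → r.Prime → p < r → ∀ a ∈ A, ∀ b ∈ A,
        Irrational ((p : ℝ) ^ d * a + (r : ℝ) ^ d * b) ∧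
        Irrational ((p : ℝ) ^ d * a - (r : ℝ) ^ d * b)) →
      ∃ H₀ : ℕ, ∀ H ≥ H₀, ∃ N₀ : ℕ, ∀ N ≥ N₀, ∀ (x : ℕ → X) (P : ℕ → Polynomial ℝ),
        (∀ n, (P n).natDegree ≤ d ∧ (P n).coeff d ∈ A) →
        (1 / N : ℝ) * ∑ n ∈ Finset.Icc 1 N, ‖(1 / H : ℂ) * ∑ h ∈ Finset.range H,
          (ArithmeticFunction.moebius (n + h) : ℂ) * f (T^[h] (x n)) *
            Complex.exp (2 * Real.pi * Complex.I * (P n).eval (h : ℝ))‖ ≤ ε := by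
  obtain ⟨r0, τ, hr0, hτ, hmain⟩ := main_block (ε := ε / 8) (by positivity)
  refine ⟨r0, τ, hr0, hτ, ?_⟩
  intro X _ _ T f hf hf1
  have hre1 : ∀ x, |(f x).re| ≤ 1 := fun x => (Complex.abs_re_le_norm _).trans (hf1 x)
  have him1 : ∀ x, |(f x).im| ≤ 1 := fun x => (Complex.abs_im_le_norm _).trans (hf1 x)
  obtain ⟨δa, hδa, ha⟩ := hmain X T (fun x => (f x).re) (Complex.continuous_re.comp hf) hre1
  obtain ⟨δb, hδb, hb⟩ := hmain X T (fun x => (f x).im) (Complex.continuous_im.comp hf) him1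
  refine ⟨min δa δb, lt_min hδa hδb, ?_⟩
  intro s hs L hL F hcov hF d hd A hAc hA
  have hca : Cov T L δa F := fun x => by
    obtain ⟨y, hy, hxy⟩ := hcov x
    exact ⟨y, hy, hxy.trans (mul_le_mul_of_nonneg_right (min_le_left _ _) (Nat.cast_nonneg _))⟩
  have hcb : Cov T L δb F := fun x => by
    obtain ⟨y, hy, hxy⟩ := hcov x
    exact ⟨y, hy, hxy.trans (mul_le_mul_of_nonneg_right (min_le_right _ _) (Nat.cast_nonneg _))⟩
  obtain ⟨H1, h1⟩ := ha s hs L hL F hca hF d hd A hAc hA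
  obtain ⟨H2, h2⟩ := hb s hs L hL F hcb hF d hd A hAc hA
  refine ⟨max (max H1 H2) 1, fun H hH => ?_⟩
  obtain ⟨N1, g1⟩ := h1 H (by omega)
  obtain ⟨N2, g2⟩ := h2 H (by omega)
  obtain ⟨N3, hN3⟩ := exists_nat_ge (16 * (H : ℝ) / ε)
  refine ⟨max (max N1 N2) (max N3 1), fun N hN x P hP => ?_⟩
  have hH1 : 1 ≤ H := by omega
  have hN1 : 1 ≤ N := by omega
  have hNr : (0 : ℝ) < N := by exact_mod_cast hN1
  have hd1 : 1 ≤ d := by omega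
  have hfin := assemble T f hf1 hH1 hN1 hd1 (fun c hc x P hP => g1 N (by omega) c hc x P hP)
    (fun c hc x P hP => g2 N (by omega) c hc x P hP) x P hP
  have hlast : 8 * (H : ℝ) / N ≤ ε / 2 := by
    rw [div_le_iff₀ hNr]
    have h3 : (N3 : ℝ) ≤ N := by exact_mod_cast (by omega : N3 ≤ N)
    have h4 : 16 * (H : ℝ) / ε ≤ N := hN3.trans h3
    rw [div_le_iff₀ hε] at h4
    linarith
  exact hfin.trans (by linarith)

/-- both statements with one threshold `D` -/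
theorem finalU {ε : ℝ} (hε : 0 < ε) : ∃ h : ℝ, 0 < h ∧
    ∀ (X : Type) [MetricSpace X] [CompactSpace X] (T : X → X), Continuous T →
      Dynamics.coverEntropy T Set.univ < (h : EReal) →
      ∀ f : X → ℂ, Continuous f → (∀ x, ‖f x‖ ≤ 1) →
      ∃ D : ℕ,
        (∀ d ≥ D, ∀ A : Set ℝ, IsCompact A →
          (∀ p r : ℕ, p.Prime → r.Prime → p < r → ∀ a ∈ A, ∀ b ∈ A,
            Irrational ((p : ℝ) ^ d * a + (r : ℝ) ^ d * b) ∧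
            Irrational ((p : ℝ) ^ d * a - (r : ℝ) ^ d * b)) →
          ∃ H₀ : ℕ, ∀ H ≥ H₀, ∃ N₀ : ℕ, ∀ N ≥ N₀, ∀ (x : ℕ → X) (P : ℕ → Polynomial ℝ),
            (∀ n, (P n).natDegree ≤ d ∧ (P n).coeff d ∈ A) →
            (1 / N : ℝ) * ∑ n ∈ Finset.Icc 1 N, ‖(1 / H : ℂ) * ∑ h ∈ Finset.range H,
              (ArithmeticFunction.moebius (n + h) : ℂ) * f (T^[h] (x n)) *
                Complex.exp (2 * Real.pi * Complex.I * (P n).eval (h : ℝ))‖ ≤ ε) ∧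
        ∀ k : ℝ, 0 < k →
          (∀ δ : ℝ, 0 < δ → ∀ κ : ℝ, 0 < κ → ∃ L : ℕ, 1 ≤ L ∧ ∃ F : Finset X,
            (F.card : ℝ) ≤ κ * (L : ℝ) ^ k ∧
            ∀ x : X, ∃ y ∈ F, ∑ a ∈ Finset.range L, dist (T^[a] x) (T^[a] y) ≤ δ * L) →
          D ≤ ⌈2 * k⌉₊ + 1 := by
  classical
  obtain ⟨r0, τ, hr0, hτ, hmain⟩ := main_short hε
  obtain ⟨h, hh, hthr⟩ := thr_entropy hr0 hτ
  refine ⟨h, hh, ?_⟩
  intro X _ _ T hT hent f hf hf1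
  obtain ⟨δ, hδ, hmain⟩ := hmain X T f hf hf1
  have hex : ∃ D : ℕ, ∀ d ≥ D, ∀ A : Set ℝ, IsCompact A →
          (∀ p r : ℕ, p.Prime → r.Prime → p < r → ∀ a ∈ A, ∀ b ∈ A,
            Irrational ((p : ℝ) ^ d * a + (r : ℝ) ^ d * b) ∧
            Irrational ((p : ℝ) ^ d * a - (r : ℝ) ^ d * b)) →
          ∃ H₀ : ℕ, ∀ H ≥ H₀, ∃ N₀ : ℕ, ∀ N ≥ N₀, ∀ (x : ℕ → X) (P : ℕ → Polynomial ℝ),
            (∀ n, (P n).natDegree ≤ d ∧ (P n).coeff d ∈ A) →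
            (1 / N : ℝ) * ∑ n ∈ Finset.Icc 1 N, ‖(1 / H : ℂ) * ∑ h ∈ Finset.range H,
              (ArithmeticFunction.moebius (n + h) : ℂ) * f (T^[h] (x n)) *
                Complex.exp (2 * Real.pi * Complex.I * (P n).eval (h : ℝ))‖ ≤ ε := by
    obtain ⟨s, hs, L, hL, F, hcov, hF⟩ := hthr X T hT hent δ hδ
    exact ⟨s + 1, fun d hd A hAc hA => hmain s hs L hL F hcov hF d hd A hAc hA⟩
  refine ⟨Nat.find hex, Nat.find_spec hex, fun k hk hc => Nat.find_min' hex ?_⟩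
  rcases isEmpty_or_nonempty X with hX | hX
  · intro d hd A hAc hA
    exact ⟨0, fun H hH => ⟨0, fun N hN x => (hX.false (x 0)).elim⟩⟩
  · obtain ⟨L, hL, F, hcov, hF⟩ := thr_poly hr0 hτ T hk hc hδ
    intro d hd A hAc hA
    exact hmain _ (Nat.ceil_pos.2 (by positivity)) L hL F hcov hF d hd A hAc hA

end Pool.Agent.Lib.MP_3e612f_nt.HU
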