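import Pool.Agent.Lib.MP_3e612f_nt.HU.PairU
import Pool.Agent.Lib.MP_3e612f_nt.HU.Block
import Pool.Agent.Lib.MP_3e612f_nt.PB.KatFin

/-!
HU, section MainU: the Möbius function against block sequences.
-/

set_option autoImplicit false

namespace Pool.Agent.Lib.MP_3e612f_nt.HU

open Pool.Agent.Lib.MP_3e612f_nt Pool.Agent.Lib.MP_3e612f_nt.HD

theorem main_block {ε : ℝ} (hε : 0 < ε) : ∃ (r0 : ℕ) (τ : ℝ), 1 ≤ r0 ∧ 0 < τ ∧
    ∀ (X : Type) [MetricSpace X] [CompactSpace X] (T : X → X) (u : X → ℝ), Continuous u →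
      (∀ x, |u x| ≤ 1) → ∃ δ : ℝ, 0 < δ ∧ ∀ s : ℕ, 1 ≤ s → ∀ L : ℕ, r0 ≤ L →
      ∀ F : Finset X, Cov T L δ F →
      (F.card : ℝ) ^ 2 * (s.factorial * (2 * r0 : ℝ) ^ s) ≤ τ ^ (2 * s) / 2 * (L : ℝ) ^ s →
      ∀ d : ℕ, s + 1 ≤ d → ∀ A : Set ℝ, IsCompact A →
      (∀ p r : ℕ, p.Prime → r.Prime → p < r → ∀ a ∈ A, ∀ b ∈ A,
        Irrational ((p : ℝ) ^ d * a + (r : ℝ) ^ d * b) ∧
        Irrational ((p : ℝ) ^ d * a - (r : ℝ) ^ d * b)) →
      ∃ H0 : ℕ, ∀ H ≥ H0, ∃ N0 : ℕ, ∀ N ≥ N0, ∀ c < H, ∀ (x : ℕ → X) (P : ℕ → Polynomial ℝ),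
        (∀ j, (P j).natDegree ≤ d ∧ (P j).coeff d ∈ A) →
        |∑ n ∈ Finset.Icc 1 N, mu n * blk T u H c x P n| ≤ ε * N := by
  obtain ⟨S, δ₁, N1, hS, hδ₁, hK⟩ := PB.katai_fin (A := 1) le_rfl 0 hε
  refine ⟨max 1 (S.sup id), δ₁ / 8, le_max_left _ _, by positivity, ?_⟩
  intro X _ _ T u hu hu1
  have hpc := fun r : ℕ => window_cos hu hu1 T r (η := δ₁ / 4) (by positivity)
  choose δf hδf hpc using hpc
  obtain ⟨δ, hδS, hδ0⟩ : ∃ δ : ℝ, (∀ r ∈ S, δ ≤ δf r) ∧ 0 < δ := by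
    have h1 : ∀ᶠ δ in nhdsWithin (0 : ℝ) (Set.Ioi 0), ∀ r ∈ S, δ ≤ δf r :=
      (Filter.eventually_all_finset S).2 fun r _ =>
        eventually_nhdsWithin_of_eventually_nhds (eventually_le_nhds (hδf r))
    exact (h1.and self_mem_nhdsWithin).exists
  refine ⟨δ, hδ0, ?_⟩
  intro s hs L hL F hcov hF d hd A hAc hA
  -- the block length
  have key : ∀ᶠ H : ℕ in Filter.atTop, ∀ r ∈ S, ∀ p ∈ S, p < r → ∃ N0 : ℕ, ∀ N ≥ N0, ∀ c < H,
      ∀ (x : ℕ → X) (P : ℕ → Polynomial ℝ), (∀ j, (P j).natDegree ≤ d ∧ (P j).coeff d ∈ A) →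
      |∑ m ∈ Finset.Icc 1 (N / r), blk T u H c x P (p * m) * blk T u H c x P (r * m)| ≤
        2 * (δ₁ / 4 + 2 * (δ₁ / 8)) * N := by
    refine (Filter.eventually_all_finset S).2 fun r hr => ?_
    refine (Filter.eventually_all_finset S).2 fun p hp => ?_
    by_cases hpr : p < r
    · have hr0 : r ≤ max 1 (S.sup id) := le_trans (Finset.le_sup (f := id) hr) (le_max_right _ _)
      obtain ⟨K0, hK0⟩ := hpc r p (hS p hp).1.one_le hpr s hs (δ₁ / 8) (by positivity) L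
        (hr0.trans hL) F (by
          intro x
          obtain ⟨y, hy, hxy⟩ := hcov x
          exact ⟨y, hy, hxy.trans (mul_le_mul_of_nonneg_right (hδS r hr) (Nat.cast_nonneg _))⟩)
        (by
          refine le_trans ?_ hF
          have : (r : ℝ) ≤ ((max 1 (S.sup id) : ℕ) : ℝ) := by exact_mod_cast hr0
          gcongr) d hd A hAc (hA p r (hS p hp).1 (hS r hr).1 hpr)
      obtain ⟨H0, hH0⟩ := block_pair T u hu1 (hS p hp).1.one_le hpr
        (κ := δ₁ / 4 + 2 * (δ₁ / 8)) (by positivity) (d := d) (A := A) (K := max K0 1)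
        (le_max_right _ _) (hK0 _ (le_max_left _ _))
      exact Filter.eventually_atTop.2 ⟨H0, fun H hH _ => hH0 H hH⟩
    · exact Filter.Eventually.of_forall fun N h => absurd h hpr
  obtain ⟨H0, hH0⟩ := Filter.eventually_atTop.1 key
  refine ⟨H0, fun H hH => ?_⟩
  have key2 : ∀ᶠ N : ℕ in Filter.atTop, ∀ r ∈ S, ∀ p ∈ S, p < r → ∀ c < H,
      ∀ (x : ℕ → X) (P : ℕ → Polynomial ℝ), (∀ j, (P j).natDegree ≤ d ∧ (P j).coeff d ∈ A) →
      |∑ m ∈ Finset.Icc 1 (N / r), blk T u H c x P (p * m) * blk T u H c x P (r * m)| ≤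
        2 * (δ₁ / 4 + 2 * (δ₁ / 8)) * N := by
    refine (Filter.eventually_all_finset S).2 fun r hr => ?_
    refine (Filter.eventually_all_finset S).2 fun p hp => ?_
    by_cases hpr : p < r
    · obtain ⟨N0, hN0⟩ := hH0 H hH r hr p hp hpr
      exact Filter.eventually_atTop.2 ⟨N0, fun N hN _ => hN0 N hN⟩
    · exact Filter.Eventually.of_forall fun N h => absurd h hpr
  obtain ⟨N0, hN0⟩ := Filter.eventually_atTop.1 key2
  refine ⟨max N0 N1, fun N hN c hc x P hP => ?_⟩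
  refine hK N ((le_max_right _ _).trans hN) (blk T u H c x P) (abs_blk_le T u hu1 H c x P) ?_
  intro p hp r hr hpr
  refine (hN0 N ((le_max_left _ _).trans hN) r hr p hp hpr c hc x P hP).trans ?_
  have : (0 : ℝ) ≤ N := Nat.cast_nonneg _
  nlinarith

end Pool.Agent.Lib.MP_3e612f_nt.HU
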