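import Pool.Agent.Lib.MP_3e612f_nt.HU.WeylU
import Pool.Agent.Lib.MP_3e612f_nt.HU.CoefU
import Pool.Agent.Lib.MP_3e612f_nt.HD.Newton

/-!
HU, section MomentU: the moments of short sums with arbitrary coefficients, uniform in the lower
coefficients of the phase.
-/

set_option autoImplicit false

namespace Pool.Agent.Lib.MP_3e612f_nt.HU

open Pool.Agent.Lib.MP_3e612f_nt.HD

/-- The sum over the residues as a sum over `Fin L`. -/
theorem MomentU_expand (R : Polynomial ℝ) (s L : ℕ) (b : ℕ → ℂ) (n : ℕ) :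
    ((‖∑ a ∈ Finset.range L, b a * ex (R.eval ((n + a : ℕ) : ℝ))‖ ^ (2 * s) : ℝ) : ℂ) =
      ∑ q : (Fin s → Fin L) × (Fin s → Fin L),
        ((∏ i, b (q.1 i)) * ∏ i, (starRingEnd ℂ) (b (q.2 i))) *
          ex ((shiftPoly R (fun i => (q.1 i : ℕ)) (fun i => (q.2 i : ℕ))).eval (n : ℝ)) := by
  set z : ℂ := ∑ a ∈ Finset.range L, b a * ex (R.eval ((n + a : ℕ) : ℝ)) with hz
  have hz' : z = ∑ a : Fin L, b a * ex (R.eval ((n + (a : ℕ) : ℕ) : ℝ)) := by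
    rw [hz, Finset.sum_range]
  have h1 : ((‖z‖ ^ (2 * s) : ℝ) : ℂ) = z ^ s * ((starRingEnd ℂ) z) ^ s := by
    rw [← mul_pow, Complex.mul_conj, Complex.normSq_eq_norm_sq, pow_mul]
    push_cast
    ring
  have h2 : z ^ s = ∑ x : Fin s → Fin L, ∏ i, (b (x i) * ex (R.eval ((n + (x i : ℕ) : ℕ) : ℝ))) := by
    rw [hz', Fintype.sum_pow]
  have h3 : ((starRingEnd ℂ) z) ^ s = ∑ y : Fin s → Fin L,
      ∏ i, ((starRingEnd ℂ) (b (y i)) * ex (-(R.eval ((n + (y i : ℕ) : ℕ) : ℝ)))) := by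
    rw [hz', map_sum, Fintype.sum_pow]
    refine Finset.sum_congr rfl fun y _ => Finset.prod_congr rfl fun i _ => ?_
    rw [map_mul, conj_ex]
  rw [h1, h2, h3, Finset.sum_mul_sum, Fintype.sum_prod_type]
  refine Finset.sum_congr rfl fun x _ => Finset.sum_congr rfl fun y _ => ?_
  rw [Finset.prod_mul_distrib, Finset.prod_mul_distrib, shiftPoly_eval, ex_sum]
  have h4 : ∀ i, ex (R.eval ((n + (x i : ℕ) : ℕ) : ℝ) - R.eval ((n + (y i : ℕ) : ℕ) : ℝ)) =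
      ex (R.eval ((n + (x i : ℕ) : ℕ) : ℝ)) * ex (-(R.eval ((n + (y i : ℕ) : ℕ) : ℝ))) := by
    intro i
    rw [sub_eq_add_neg, ex_add]
  rw [Finset.prod_congr rfl (fun i _ => h4 i), Finset.prod_mul_distrib]
  ring

/-- one off-diagonal pair -/
theorem MomentU_off {s d : ℕ} (hd : s + 1 ≤ d) {B : Set ℝ} (hBc : IsCompact B)
    (hB : ∀ β ∈ B, Irrational β) {x y : Fin s → ℕ}
    (h : ∃ j, j ≤ s ∧ ∑ i, x i ^ j ≠ ∑ i, y i ^ j) {ε : ℝ} (hε : 0 < ε) :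
    ∃ N0 : ℕ, ∀ N ≥ N0, ∀ R : Polynomial ℝ, R.natDegree ≤ d → R.coeff d ∈ B →
      ‖∑ n ∈ Finset.Icc 1 N, ex ((shiftPoly R x y).eval (n : ℝ))‖ ≤ ε * N := by
  classical
  have hex : ∃ j, ∑ i, x i ^ j ≠ ∑ i, y i ^ j := by
    obtain ⟨j, _, hj⟩ := h
    exact ⟨j, hj⟩
  obtain ⟨j, hj⟩ : ∃ j, j = Nat.find hex := ⟨_, rfl⟩
  have hjne : ∑ i, x i ^ j ≠ ∑ i, y i ^ j := by rw [hj]; exact Nat.find_spec hex
  have hjmin : ∀ u < j, ∑ i, x i ^ u = ∑ i, y i ^ u := by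
    intro u hu
    rw [hj] at hu
    exact not_not.1 (Nat.find_min hex hu)
  have hjs : j ≤ s := by
    obtain ⟨u, hu1, hu2⟩ := h
    rw [hj]
    exact (Nat.find_min' hex hu2).trans hu1
  have hσj : ∑ i, (x i : ℤ) ^ j - ∑ i, (y i : ℤ) ^ j ≠ 0 := by
    intro h0
    apply hjne
    have h2 : ∑ i, (x i : ℤ) ^ j = ∑ i, (y i : ℤ) ^ j := sub_eq_zero.1 h0
    exact_mod_cast h2
  obtain ⟨z, hz⟩ : ∃ z : ℤ, z = ((d.choose (d - j) : ℕ) : ℤ) *
      (∑ i, (x i : ℤ) ^ j - ∑ i, (y i : ℤ) ^ j) := ⟨_, rfl⟩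
  have hz0 : z ≠ 0 := by
    rw [hz]
    refine mul_ne_zero ?_ hσj
    exact_mod_cast (Nat.choose_pos (Nat.sub_le d j)).ne'
  obtain ⟨N0, hN0⟩ := weylU (d := d - j) (by omega) (B := (fun β : ℝ => (z : ℝ) * β) '' B)
    (hBc.image (by fun_prop)) (by
      rintro _ ⟨β, hβ, rfl⟩
      exact (hB β hβ).intCast_mul hz0) hε
  refine ⟨N0, fun N hN R hRd hR => ?_⟩
  obtain ⟨h1, h2⟩ := shiftPoly_top hRd (by omega : j ≤ d) hjmin
  rw [← hz] at h2
  exact hN0 N hN _ h1 ⟨_, hR, h2.symm⟩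

theorem momentU {s d : ℕ} (hd : s + 1 ≤ d) {B : Set ℝ} (hBc : IsCompact B)
    (hB : ∀ β ∈ B, Irrational β) {L : ℕ} (hL : 1 ≤ L) {ε : ℝ} (hε : 0 < ε) :
    ∃ N0 : ℕ, ∀ N ≥ N0, ∀ R : Polynomial ℝ, R.natDegree ≤ d → R.coeff d ∈ B →
      ∀ b : ℕ → ℂ, (∀ a, ‖b a‖ ≤ 1) →
      ∑ n ∈ Finset.Icc 1 N, ‖(1 / (L : ℂ)) * ∑ a ∈ Finset.range L,
        b a * ex (R.eval ((n + a : ℕ) : ℝ))‖ ^ (2 * s) ≤
      ((s.factorial : ℝ) / (L : ℝ) ^ s + ε) * N := by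
  classical
  set good : Finset ((Fin s → Fin L) × (Fin s → Fin L)) := Finset.univ.filter
      fun q => ∀ j ≤ s, ∑ i, (q.1 i : ℕ) ^ j = ∑ i, (q.2 i : ℕ) ^ j with hgood
  have hW : ∀ q : (Fin s → Fin L) × (Fin s → Fin L), ∃ N0 : ℕ, q ∉ good → ∀ N ≥ N0,
      ∀ R : Polynomial ℝ, R.natDegree ≤ d → R.coeff d ∈ B →
      ‖∑ n ∈ Finset.Icc 1 N,
        ex ((shiftPoly R (fun i => (q.1 i : ℕ)) (fun i => (q.2 i : ℕ))).eval (n : ℝ))‖ ≤ ε * N := by
    intro q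
    by_cases hq : q ∈ good
    · exact ⟨0, fun h => absurd hq h⟩
    · have h1 : ∃ j, j ≤ s ∧ ∑ i, (q.1 i : ℕ) ^ j ≠ ∑ i, (q.2 i : ℕ) ^ j := by
        by_contra hcon
        push Not at hcon
        exact hq (Finset.mem_filter.2 ⟨Finset.mem_univ _, hcon⟩)
      obtain ⟨N0, hN0⟩ := MomentU_off hd hBc hB h1 hε
      exact ⟨N0, fun _ => hN0⟩
  choose N0 hN0 using hW
  refine ⟨Finset.univ.sup N0, fun N hN R hRd hR b hb => ?_⟩
  have hL0 : (0 : ℝ) < L := by exact_mod_cast hL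
  set z : ℕ → ℂ := fun n => ∑ a ∈ Finset.range L, b a * ex (R.eval ((n + a : ℕ) : ℝ)) with hz
  set Sq : (Fin s → Fin L) × (Fin s → Fin L) → ℂ := fun q => ∑ n ∈ Finset.Icc 1 N,
      ex ((shiftPoly R (fun i => (q.1 i : ℕ)) (fun i => (q.2 i : ℕ))).eval (n : ℝ)) with hSq
  set cq : (Fin s → Fin L) × (Fin s → Fin L) → ℂ := fun q =>
    (∏ i, b (q.1 i)) * ∏ i, (starRingEnd ℂ) (b (q.2 i)) with hcq
  have hcn : ∀ q, ‖cq q‖ ≤ 1 := by
    intro q
    rw [hcq]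
    simp only [norm_mul, norm_prod, RCLike.norm_conj]
    have h1 : ∏ i, ‖b (q.1 i)‖ ≤ 1 := Finset.prod_le_one (fun i _ => norm_nonneg _) fun i _ => hb _
    have h2 : ∏ i, ‖b (q.2 i)‖ ≤ 1 := Finset.prod_le_one (fun i _ => norm_nonneg _) fun i _ => hb _
    exact mul_le_one₀ h1 (Finset.prod_nonneg fun i _ => norm_nonneg _) h2
  -- the main identity
  have hmain : ((∑ n ∈ Finset.Icc 1 N, ‖z n‖ ^ (2 * s) : ℝ) : ℂ) = ∑ q, cq q * Sq q := by
    rw [Complex.ofReal_sum, Finset.sum_congr rfl (fun n _ => MomentU_expand R s L b n),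
      Finset.sum_comm]
    refine Finset.sum_congr rfl fun q _ => ?_
    rw [hSq, Finset.mul_sum]
  have htriv : ∀ q, ‖Sq q‖ ≤ N := by
    intro q
    refine (norm_sum_le _ _).trans ?_
    rw [Finset.sum_congr rfl (fun n _ => norm_ex _)]
    simp
  have hbad : ∀ q, q ∉ good → ‖Sq q‖ ≤ ε * N := by
    intro q hq
    exact hN0 q hq N ((Finset.le_sup (Finset.mem_univ q)).trans hN) R hRd hR
  have hsum : ∑ n ∈ Finset.Icc 1 N, ‖z n‖ ^ (2 * s) ≤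
      ((s.factorial * L ^ s : ℕ) : ℝ) * N + ((L : ℝ) ^ (2 * s)) * (ε * N) := by
    have h1 : ∑ n ∈ Finset.Icc 1 N, ‖z n‖ ^ (2 * s) =
        ‖((∑ n ∈ Finset.Icc 1 N, ‖z n‖ ^ (2 * s) : ℝ) : ℂ)‖ := by
      rw [Complex.norm_real, Real.norm_eq_abs, abs_of_nonneg]
      exact Finset.sum_nonneg fun n _ => by positivity
    rw [h1, hmain]
    refine (norm_sum_le _ _).trans ?_
    have h2 : ∀ q, ‖cq q * Sq q‖ ≤ (if q ∈ good then (N : ℝ) else 0) + ε * N := by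
      intro q
      rw [norm_mul]
      have h3 : ‖cq q‖ * ‖Sq q‖ ≤ ‖Sq q‖ := by
        have := mul_le_mul_of_nonneg_right (hcn q) (norm_nonneg (Sq q))
        linarith
      have hεN : 0 ≤ ε * N := by positivity
      by_cases hq : q ∈ good
      · rw [if_pos hq]
        linarith [htriv q]
      · rw [if_neg hq]
        linarith [hbad q hq]
    refine (Finset.sum_le_sum fun q _ => h2 q).trans ?_
    rw [Finset.sum_add_distrib, ← Finset.sum_filter, Finset.sum_const, Finset.sum_const,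
      nsmul_eq_mul, nsmul_eq_mul]
    have hcard : ((Finset.univ : Finset ((Fin s → Fin L) × (Fin s → Fin L))).card : ℝ) =
        (L : ℝ) ^ (2 * s) := by
      rw [Finset.card_univ, Fintype.card_prod, Fintype.card_fun, Fintype.card_fin,
        Fintype.card_fin, two_mul, pow_add]
      push_cast
      ring
    rw [hcard]
    have hfil : (Finset.univ.filter fun q => q ∈ good) = good := by
      ext q; simp
    rw [hfil]
    have hcnt : (good.card : ℝ) ≤ ((s.factorial * L ^ s : ℕ) : ℝ) := by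
      exact_mod_cast count_le s L
    have := mul_le_mul_of_nonneg_right hcnt (Nat.cast_nonneg (α := ℝ) N)
    linarith
  have hnorm : ∀ n, ‖(1 / (L : ℂ)) * ∑ a ∈ Finset.range L,
      b a * ex (R.eval ((n + a : ℕ) : ℝ))‖ ^ (2 * s) = (1 / (L : ℝ) ^ (2 * s)) * ‖z n‖ ^ (2 * s) := by
    intro n
    rw [norm_mul, mul_pow, norm_div, norm_one, Complex.norm_natCast, one_div, inv_pow, one_div]
  rw [Finset.sum_congr rfl (fun n _ => hnorm n), ← Finset.mul_sum]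
  have hLp : (0 : ℝ) < (L : ℝ) ^ (2 * s) := by positivity
  refine (mul_le_mul_of_nonneg_left hsum (by positivity)).trans (le_of_eq ?_)
  push_cast
  rw [two_mul, pow_add]
  field_simp

end Pool.Agent.Lib.MP_3e612f_nt.HU
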