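import Pool.Agent.Lib.MP_3e612f_nt.HD.Words

/-!
HU, section WordsU: the words of `n ↦ u (T ^ (p n) x) u (T ^ (r n) x')`.
-/

set_option autoImplicit false

namespace Pool.Agent.Lib.MP_3e612f_nt.HU

open Pool.Agent.Lib.MP_3e612f_nt.HD

theorem WordsU_sub {g : ℕ → ℝ} (hg : ∀ a, 0 ≤ g a) {p r L L' : ℕ} (hp : 1 ≤ p) (hpr : p ≤ r)
    (hL : r * L' ≤ L) : ∑ a ∈ Finset.range L', g (p * a) ≤ ∑ a ∈ Finset.range L, g a := by
  classical
  have hinj : Set.InjOn (fun a => p * a) (Finset.range L' : Set ℕ) := by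
    intro a _ b _ hab
    exact Nat.eq_of_mul_eq_mul_left (by omega) hab
  rw [← Finset.sum_image (f := g) (g := fun a => p * a) hinj]
  refine Finset.sum_le_sum_of_subset_of_nonneg ?_ (fun i _ _ => hg i)
  intro b hb
  rw [Finset.mem_image] at hb
  obtain ⟨a, ha, rfl⟩ := hb
  rw [Finset.mem_range] at ha ⊢
  calc p * a ≤ r * a := Nat.mul_le_mul_right _ hpr
    _ < r * L' := Nat.mul_lt_mul_of_pos_left ha (by omega)
    _ ≤ L := hL

theorem WordsU_one {X : Type} [MetricSpace X] {u : X → ℝ} (T : X → X) {C η δ : ℝ}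
    (hC : 0 ≤ C) (hlip : ∀ x y, |u x - u y| ≤ η / 4 + C * dist x y) {r : ℕ} (hη : 0 < η)
    (hδ : δ = η / (8 * (C + 1) * (r + 1))) {p L L' : ℕ} (hp : 1 ≤ p) (hpr : p ≤ r)
    (hL : r * L' ≤ L) (hL2 : L ≤ 2 * r * L') {x y : X} {n : ℕ}
    (hy : ∑ a ∈ Finset.range L, dist (T^[a] (T^[p * n] x)) (T^[a] y) ≤ δ * L) :
    ∑ a ∈ Finset.range L', |u (T^[p * (n + a)] x) - u (T^[p * a] y)| ≤ η / 2 * L' := by
  have h1 : ∀ a ∈ Finset.range L', |u (T^[p * (n + a)] x) - u (T^[p * a] y)| ≤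
      η / 4 + C * dist (T^[p * a] (T^[p * n] x)) (T^[p * a] y) := by
    intro a _
    have h2 : T^[p * (n + a)] x = T^[p * a] (T^[p * n] x) := by
      rw [← Function.iterate_add_apply]
      congr 2
      ring
    rw [h2]
    exact hlip _ _
  have h2 := Finset.sum_le_sum h1
  rw [Finset.sum_add_distrib, ← Finset.mul_sum] at h2
  have h3 : ∑ a ∈ Finset.range L', dist (T^[p * a] (T^[p * n] x)) (T^[p * a] y) ≤ δ * L := by
    refine le_trans ?_ hy
    exact WordsU_sub (g := fun a => dist (T^[a] (T^[p * n] x)) (T^[a] y)) (fun a => dist_nonneg)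
      hp hpr hL
  have h4 : C * ∑ a ∈ Finset.range L', dist (T^[p * a] (T^[p * n] x)) (T^[p * a] y) ≤
      η / 4 * L' := by
    have hr0 : (0 : ℝ) ≤ r := Nat.cast_nonneg r
    have hL0 : (0 : ℝ) ≤ L' := Nat.cast_nonneg L'
    have hLr : (L : ℝ) ≤ 2 * r * L' := by exact_mod_cast hL2
    have hδ0 : 0 < δ := by rw [hδ]; positivity
    have h5 : C * (δ * (2 * r * L')) ≤ η / 4 * L' := by
      have h6 : C * (δ * (2 * r)) ≤ η / 4 := by
        rw [hδ]
        rw [show C * (η / (8 * (C + 1) * (r + 1)) * (2 * r)) =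
          (C * r * η * 2) / (8 * (C + 1) * (r + 1)) by ring]
        rw [div_le_iff₀ (by positivity)]
        have h7 : C * r ≤ (C + 1) * (r + 1) := by nlinarith
        have h8 := mul_le_mul_of_nonneg_right h7 hη.le
        nlinarith
      calc C * (δ * (2 * r * L')) = C * (δ * (2 * r)) * L' := by ring
        _ ≤ η / 4 * L' := mul_le_mul_of_nonneg_right h6 hL0
    calc C * ∑ a ∈ Finset.range L', dist (T^[p * a] (T^[p * n] x)) (T^[p * a] y)
        ≤ C * (δ * L) := mul_le_mul_of_nonneg_left h3 hC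
      _ ≤ C * (δ * (2 * r * L')) :=
          mul_le_mul_of_nonneg_left (mul_le_mul_of_nonneg_left hLr hδ0.le) hC
      _ ≤ η / 4 * L' := h5
  have h6 : ∑ a ∈ Finset.range L', η / 4 = η / 4 * L' := by
    rw [Finset.sum_const, Finset.card_range, nsmul_eq_mul]; ring
  rw [h6] at h2
  linarith

theorem wordsU {X : Type} [MetricSpace X] [CompactSpace X] {u : X → ℝ} (hu : Continuous u)
    (hu1 : ∀ x, |u x| ≤ 1) (T : X → X) (r : ℕ) {η : ℝ} (hη : 0 < η) :
    ∃ δ : ℝ, 0 < δ ∧ ∀ p : ℕ, 1 ≤ p → p < r → ∀ L L' : ℕ, r * L' ≤ L → L ≤ 2 * r * L' →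
      ∀ F : Finset X, Cov T L δ F → ∃ B : Finset (ℕ → ℂ), B.card ≤ F.card ^ 2 ∧
        (∀ b ∈ B, ∀ a, ‖b a‖ ≤ 1) ∧ ∀ (x x' : X) (n : ℕ), ∃ b ∈ B,
          ∑ a ∈ Finset.range L', ‖((u (T^[p * (n + a)] x) * u (T^[r * (n + a)] x') : ℝ) : ℂ) - b a‖ ≤
            η * L' := by
  classical
  obtain ⟨C, hC, hlip⟩ := exists_lip hu hu1 (η := η / 4) (by positivity)
  refine ⟨η / (8 * (C + 1) * (r + 1)), by positivity, ?_⟩
  intro p hp hpr L L' hL hL2 F hF
  refine ⟨(F ×ˢ F).image (fun q : X × X => fun a : ℕ =>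
    ((u (T^[p * a] q.1) * u (T^[r * a] q.2) : ℝ) : ℂ)), ?_, ?_, ?_⟩
  · refine le_trans Finset.card_image_le ?_
    rw [Finset.card_product]
    exact (sq _).symm.le
  · intro b hb a
    rw [Finset.mem_image] at hb
    obtain ⟨q, _, rfl⟩ := hb
    simp only
    rw [Complex.norm_real, Real.norm_eq_abs, abs_mul]
    exact mul_le_one₀ (hu1 _) (abs_nonneg _) (hu1 _)
  · intro x x' n
    obtain ⟨y, hyF, hy⟩ := hF (T^[p * n] x)
    obtain ⟨z, hzF, hz⟩ := hF (T^[r * n] x')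
    refine ⟨_, Finset.mem_image.2 ⟨(y, z), Finset.mem_product.2 ⟨hyF, hzF⟩, rfl⟩, ?_⟩
    have h1 := WordsU_one T hC hlip hη rfl hp hpr.le hL hL2 hy
    have h2 := WordsU_one T hC hlip hη rfl (by omega : 1 ≤ r) le_rfl hL hL2 hz
    have h3 : ∀ a ∈ Finset.range L',
        ‖((u (T^[p * (n + a)] x) * u (T^[r * (n + a)] x') : ℝ) : ℂ) -
          ((u (T^[p * a] y) * u (T^[r * a] z) : ℝ) : ℂ)‖ ≤
        |u (T^[p * (n + a)] x) - u (T^[p * a] y)| + |u (T^[r * (n + a)] x') - u (T^[r * a] z)| := by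
      intro a _
      rw [← Complex.ofReal_sub, Complex.norm_real, Real.norm_eq_abs]
      set U := u (T^[p * (n + a)] x)
      set U' := u (T^[p * a] y)
      set V := u (T^[r * (n + a)] x')
      set V' := u (T^[r * a] z)
      have e : U * V - U' * V' = (U - U') * V + U' * (V - V') := by ring
      rw [e]
      refine (abs_add_le _ _).trans ?_
      rw [abs_mul, abs_mul]
      have hV : |V| ≤ 1 := hu1 _
      have hU' : |U'| ≤ 1 := hu1 _
      have a1 : |U - U'| * |V| ≤ |U - U'| * 1 := mul_le_mul_of_nonneg_left hV (abs_nonneg _)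
      have a2 : |U'| * |V - V'| ≤ 1 * |V - V'| := mul_le_mul_of_nonneg_right hU' (abs_nonneg _)
      linarith
    refine (Finset.sum_le_sum h3).trans ?_
    rw [Finset.sum_add_distrib]
    linarith

end Pool.Agent.Lib.MP_3e612f_nt.HU
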