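import Pool.Agent.Lib.MP_3e612f_nt.HU.MomentU
import Pool.Agent.Lib.MP_3e612f_nt.HU.WordsU
import Pool.Agent.Lib.MP_3e612f_nt.HD.Avg

/-!
HU, section PairU: the correlation sums on one window, uniform in the points and in the lower
coefficients.
-/

set_option autoImplicit false

namespace Pool.Agent.Lib.MP_3e612f_nt.HU

open Pool.Agent.Lib.MP_3e612f_nt.HD

theorem PairU_re_ex (t : ℝ) : (ex t).re = Real.cos (2 * Real.pi * t) := by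
  unfold ex
  have : (2 * (Real.pi : ℂ) * Complex.I * (t : ℂ)) = ((2 * Real.pi * t : ℝ) : ℂ) * Complex.I := by
    push_cast; ring
  rw [this, Complex.exp_ofReal_mul_I_re]

theorem pair_sumU {X : Type} [MetricSpace X] [CompactSpace X] {u : X → ℝ} (hu : Continuous u)
    (hu1 : ∀ x, |u x| ≤ 1) (T : X → X) (r : ℕ) {η : ℝ} (hη : 0 < η) :
    ∃ δ : ℝ, 0 < δ ∧ ∀ p : ℕ, 1 ≤ p → p < r → ∀ s : ℕ, 1 ≤ s → ∀ τ : ℝ, 0 < τ → ∀ L : ℕ, r ≤ L →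
      ∀ F : Finset X, Cov T L δ F →
      (F.card : ℝ) ^ 2 * (s.factorial * (2 * r : ℝ) ^ s) ≤ τ ^ (2 * s) / 2 * (L : ℝ) ^ s →
      ∀ (d : ℕ), s + 1 ≤ d → ∀ B : Set ℝ, IsCompact B → (∀ β ∈ B, Irrational β) →
      ∃ N0 : ℕ, ∀ N ≥ N0, ∀ R : Polynomial ℝ, R.natDegree ≤ d → R.coeff d ∈ B → ∀ x x' : X,
        ‖∑ n ∈ Finset.Icc 1 N,
        ((u (T^[p * n] x) * u (T^[r * n] x') : ℝ) : ℂ) * ex (R.eval (n : ℝ))‖ ≤
        (η + 2 * τ) * N := by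
  obtain ⟨δ, hδ, hwords⟩ := wordsU hu hu1 T r (half_pos hη)
  refine ⟨δ, hδ, ?_⟩
  intro p hp hpr s hs τ hτ L hL F hcov hF d hd A hAc hA
  have hr1 : 1 ≤ r := by omega
  obtain ⟨L', hL'⟩ : ∃ L' : ℕ, L' = L / r := ⟨_, rfl⟩
  have hL'1 : 1 ≤ L' := by
    rw [hL']
    exact (Nat.one_le_div_iff (by omega)).2 hL
  have hrL1 : r * L' ≤ L := by
    rw [hL']
    exact Nat.mul_div_le L r
  have hrL2 : L ≤ 2 * r * L' := by
    have h1 : L < r * (L' + 1) := by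
      rw [hL']
      exact Nat.lt_mul_div_succ L (by omega)
    have h2 : r * (L' + 1) ≤ 2 * r * L' := by nlinarith
    omega
  obtain ⟨B, hBc, hB1, hBw⟩ := hwords p hp hpr L L' hrL1 hrL2 F hcov
  have hτs : 0 < τ ^ (2 * s) := by positivity
  obtain ⟨ε', hε'⟩ : ∃ ε' : ℝ, ε' = τ ^ (2 * s) / (2 * ((B.card : ℝ) + 1)) := ⟨_, rfl⟩
  have hε'0 : 0 < ε' := by rw [hε']; positivity
  have hε'B : (B.card : ℝ) * ε' ≤ τ ^ (2 * s) / 2 := by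
    rw [hε', mul_div_assoc', div_le_div_iff₀ (by positivity) (by norm_num)]
    have : (0 : ℝ) ≤ B.card := Nat.cast_nonneg _
    nlinarith
  obtain ⟨N0, hmom⟩ := momentU hd hAc hA hL'1 hε'0
  obtain ⟨N1, hN1⟩ := exists_nat_ge (4 * (L' : ℝ) / η)
  refine ⟨max N0 N1, ?_⟩
  intro N hN R hRd hR x x'
  have hN0 : N0 ≤ N := le_trans (le_max_left _ _) hN
  have hN1' : (N1 : ℝ) ≤ N := by exact_mod_cast le_trans (le_max_right _ _) hN
  have hLr : (0 : ℝ) < L := by exact_mod_cast (by omega : 0 < L)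
  have hL'r : (0 : ℝ) < L' := by exact_mod_cast hL'1
  have hV0 : 0 ≤ (s.factorial : ℝ) / (L' : ℝ) ^ s + ε' := by positivity
  have hBV : (B.card : ℝ) * ((s.factorial : ℝ) / (L' : ℝ) ^ s + ε') ≤ τ ^ (2 * s) := by
    have h1 : (B.card : ℝ) ≤ (F.card : ℝ) ^ 2 := by exact_mod_cast hBc
    have h2 : (s.factorial : ℝ) / (L' : ℝ) ^ s ≤ s.factorial * (2 * r : ℝ) ^ s / (L : ℝ) ^ s := by
      rw [div_le_div_iff₀ (by positivity) (by positivity)]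
      have h3 : (L : ℝ) ≤ 2 * r * L' := by exact_mod_cast hrL2
      have h4 : (L : ℝ) ^ s ≤ (2 * r * L') ^ s := pow_le_pow_left₀ hLr.le h3 s
      calc (s.factorial : ℝ) * (L : ℝ) ^ s ≤ s.factorial * (2 * r * L') ^ s := by gcongr
        _ = s.factorial * (2 * r) ^ s * (L' : ℝ) ^ s := by rw [mul_pow (2 * (r : ℝ))]; ring
    have h3 : (B.card : ℝ) * ((s.factorial : ℝ) / (L' : ℝ) ^ s) ≤ τ ^ (2 * s) / 2 := by
      calc (B.card : ℝ) * ((s.factorial : ℝ) / (L' : ℝ) ^ s)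
          ≤ (F.card : ℝ) ^ 2 * (s.factorial * (2 * r : ℝ) ^ s / (L : ℝ) ^ s) := by gcongr
        _ = (F.card : ℝ) ^ 2 * (s.factorial * (2 * r : ℝ) ^ s) / (L : ℝ) ^ s := by ring
        _ ≤ τ ^ (2 * s) / 2 := by
          rw [div_le_iff₀ (by positivity)]
          exact hF
    rw [mul_add]
    linarith
  have hmain := avg_le (G := fun n => ((u (T^[p * n] x) * u (T^[r * n] x') : ℝ) : ℂ))
    (u := fun n => ex (R.eval (n : ℝ))) (fun n => ?_) (fun n => (norm_ex _).le) hL'1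
    (half_pos hη).le hV0 hτ hs B (hBw x x') N (fun b hb => hmom N hN0 R hRd hR b (hB1 b hb)) hBV
  · refine hmain.trans ?_
    rw [div_le_iff₀ hη] at hN1
    have h1 : (N1 : ℝ) * η ≤ N * η := mul_le_mul_of_nonneg_right hN1' hη.le
    have h2 : (2 : ℝ) * L' ≤ η / 2 * N := by linarith
    linarith
  · rw [Complex.norm_real, Real.norm_eq_abs, abs_mul]
    exact mul_le_one₀ (hu1 _) (abs_nonneg _) (hu1 _)

theorem window_cos {X : Type} [MetricSpace X] [CompactSpace X] {u : X → ℝ} (hu : Continuous u)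
    (hu1 : ∀ x, |u x| ≤ 1) (T : X → X) (r : ℕ) {η : ℝ} (hη : 0 < η) :
    ∃ δ : ℝ, 0 < δ ∧ ∀ p : ℕ, 1 ≤ p → p < r → ∀ s : ℕ, 1 ≤ s → ∀ τ : ℝ, 0 < τ → ∀ L : ℕ, r ≤ L →
      ∀ F : Finset X, Cov T L δ F →
      (F.card : ℝ) ^ 2 * (s.factorial * (2 * r : ℝ) ^ s) ≤ τ ^ (2 * s) / 2 * (L : ℝ) ^ s →
      ∀ (d : ℕ), s + 1 ≤ d → ∀ A : Set ℝ, IsCompact A →
      (∀ a ∈ A, ∀ b ∈ A, Irrational ((p : ℝ) ^ d * a + (r : ℝ) ^ d * b) ∧
        Irrational ((p : ℝ) ^ d * a - (r : ℝ) ^ d * b)) →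
      ∃ K0 : ℕ, ∀ K ≥ K0, ∀ (y z : X) (P1 P2 : Polynomial ℝ), P1.natDegree ≤ d → P1.coeff d ∈ A →
        P2.natDegree ≤ d → P2.coeff d ∈ A → ∀ i1 i2 : ℕ,
        |∑ n ∈ Finset.Icc 1 K,
          (u (T^[p * n] y) * Real.cos (2 * Real.pi * P1.eval ((i1 + p * n : ℕ) : ℝ))) *
          (u (T^[r * n] z) * Real.cos (2 * Real.pi * P2.eval ((i2 + r * n : ℕ) : ℝ)))| ≤
        (η + 2 * τ) * K := by
  obtain ⟨δ, hδ, hsum⟩ := pair_sumU hu hu1 T r hη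
  refine ⟨δ, hδ, ?_⟩
  intro p hp hpr s hs τ hτ L hL F hcov hF d hd A hAc hA
  obtain ⟨M₁, h₁⟩ := hsum p hp hpr s hs τ hτ L hL F hcov hF d hd
    ((fun q : ℝ × ℝ => (p : ℝ) ^ d * q.1 + 1 * ((r : ℝ) ^ d * q.2)) '' (A ×ˢ A))
    ((hAc.prod hAc).image (by fun_prop)) (by
      rintro _ ⟨⟨a, b⟩, ⟨ha, hb⟩, rfl⟩
      have := (hA a ha b hb).1
      simpa using this)
  obtain ⟨M₂, h₂⟩ := hsum p hp hpr s hs τ hτ L hL F hcov hF d hd
    ((fun q : ℝ × ℝ => (p : ℝ) ^ d * q.1 + (-1) * ((r : ℝ) ^ d * q.2)) '' (A ×ˢ A))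
    ((hAc.prod hAc).image (by fun_prop)) (by
      rintro _ ⟨⟨a, b⟩, ⟨ha, hb⟩, rfl⟩
      have := (hA a ha b hb).2
      have e : (p : ℝ) ^ d * a + (-1) * ((r : ℝ) ^ d * b) = (p : ℝ) ^ d * a - (r : ℝ) ^ d * b := by
        ring
      show Irrational ((p : ℝ) ^ d * a + (-1) * ((r : ℝ) ^ d * b))
      rw [e]
      exact this)
  refine ⟨max M₁ M₂, ?_⟩
  intro M hMM y z P1 P2 hP1 hP1' hP2 hP2' i1 i2
  obtain ⟨R₁, hR₁⟩ : ∃ R₁ : Polynomial ℝ,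
    R₁ = P1.comp (Polynomial.C (p : ℝ) * Polynomial.X + Polynomial.C (i1 : ℝ)) +
      Polynomial.C (1 : ℝ) *
        P2.comp (Polynomial.C (r : ℝ) * Polynomial.X + Polynomial.C (i2 : ℝ)) := ⟨_, rfl⟩
  obtain ⟨R₂, hR₂⟩ : ∃ R₂ : Polynomial ℝ,
    R₂ = P1.comp (Polynomial.C (p : ℝ) * Polynomial.X + Polynomial.C (i1 : ℝ)) +
      Polynomial.C (-1 : ℝ) *
        P2.comp (Polynomial.C (r : ℝ) * Polynomial.X + Polynomial.C (i2 : ℝ)) := ⟨_, rfl⟩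
  obtain ⟨a₁, b₁⟩ := pair_top hP1 hP2 p r i1 i2 1
  obtain ⟨a₂, b₂⟩ := pair_top hP1 hP2 p r i1 i2 (-1)
  rw [← hR₁] at a₁ b₁
  rw [← hR₂] at a₂ b₂
  have k₁ := h₁ M (le_trans (le_max_left _ _) hMM) R₁ a₁
    ⟨(P1.coeff d, P2.coeff d), ⟨hP1', hP2'⟩, b₁.symm⟩ y z
  have k₂ := h₂ M (le_trans (le_max_right _ _) hMM) R₂ a₂
    ⟨(P1.coeff d, P2.coeff d), ⟨hP1', hP2'⟩, b₂.symm⟩ y z
  have heq : ∑ n ∈ Finset.Icc 1 M,
          (u (T^[p * n] y) * Real.cos (2 * Real.pi * P1.eval ((i1 + p * n : ℕ) : ℝ))) *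
          (u (T^[r * n] z) * Real.cos (2 * Real.pi * P2.eval ((i2 + r * n : ℕ) : ℝ))) =
      ((∑ n ∈ Finset.Icc 1 M, ((u (T^[p * n] y) * u (T^[r * n] z) : ℝ) : ℂ) * ex (R₁.eval (n : ℝ))).re +
        (∑ n ∈ Finset.Icc 1 M, ((u (T^[p * n] y) * u (T^[r * n] z) : ℝ) : ℂ) *
          ex (R₂.eval (n : ℝ))).re) / 2 := by
    rw [Complex.re_sum, Complex.re_sum, ← Finset.sum_add_distrib, Finset.sum_div]
    refine Finset.sum_congr rfl fun m _ => ?_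
    rw [Complex.re_ofReal_mul, Complex.re_ofReal_mul, PairU_re_ex, PairU_re_ex]
    have e₁ : R₁.eval (m : ℝ) = P1.eval ((i1 + p * m : ℕ) : ℝ) + P2.eval ((i2 + r * m : ℕ) : ℝ) := by
      rw [hR₁]
      simp only [Polynomial.eval_add, Polynomial.eval_mul, Polynomial.eval_comp, Polynomial.eval_C,
        Polynomial.eval_X]
      push_cast
      rw [one_mul, add_comm (i1 : ℝ), add_comm (i2 : ℝ)]
    have e₂ : R₂.eval (m : ℝ) = P1.eval ((i1 + p * m : ℕ) : ℝ) - P2.eval ((i2 + r * m : ℕ) : ℝ) := by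
      rw [hR₂]
      simp only [Polynomial.eval_add, Polynomial.eval_mul, Polynomial.eval_comp, Polynomial.eval_C,
        Polynomial.eval_X]
      push_cast
      rw [add_comm (i1 : ℝ), add_comm (i2 : ℝ)]
      ring
    rw [e₁, e₂]
    generalize P1.eval ((i1 + p * m : ℕ) : ℝ) = A
    generalize P2.eval ((i2 + r * m : ℕ) : ℝ) = B
    rw [mul_add, mul_sub, Real.cos_add, Real.cos_sub]
    ring
  rw [heq, abs_div, abs_two, div_le_iff₀ (by norm_num)]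
  refine (abs_add_le _ _).trans ?_
  have a₁ := (Complex.abs_re_le_norm _).trans k₁
  have a₂ := (Complex.abs_re_le_norm _).trans k₂
  linarith

end Pool.Agent.Lib.MP_3e612f_nt.HU
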