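import Pool.Agent.Lib.MP_3e612f_nt.HD.Weyl

/-!
HU, section WeylU: Weyl's theorem, uniform in the lower coefficients.
-/

set_option autoImplicit false

namespace Pool.Agent.Lib.MP_3e612f_nt.HU

open Polynomial Pool.Agent.Lib.MP_3e612f_nt Pool.Agent.Lib.MP_3e612f_nt.HD

/-- the top coefficient of the difference -/
theorem WeylU_coeff {D : ℕ} {Q : Polynomial ℝ} (hd : Q.natDegree ≤ D + 1) (s : ℕ) :
    (Polynomial.taylor (s : ℝ) Q - Q).coeff D = (((D + 1) * s : ℕ) : ℝ) * Q.coeff (D + 1) := by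
  have h2 : (Polynomial.taylor (s : ℝ) Q).coeff D =
      Q.coeff D + (D + 1) * Q.coeff (D + 1) * s := by
    rw [Polynomial.taylor_coeff]
    have h2 : (Polynomial.hasseDeriv D Q).natDegree < 2 := by
      have := Polynomial.natDegree_hasseDeriv_le Q D
      omega
    rw [Polynomial.eval_eq_sum_range' h2]
    simp [Finset.sum_range_succ, Polynomial.hasseDeriv_coeff, add_comm 1 D]
  rw [Polynomial.coeff_sub, h2]
  push_cast
  ring

theorem WeylU_top {D : ℕ} (hD : 1 ≤ D) : ∀ B : Set ℝ, IsCompact B → (∀ β ∈ B, Irrational β) →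
    ∀ ε : ℝ, 0 < ε →
    ∃ N0 : ℕ, ∀ N ≥ N0, ∀ Q : Polynomial ℝ, Q.natDegree ≤ D → Q.coeff D ∈ B →
      ‖∑ n ∈ Finset.range N, ex (Q.eval (n : ℝ))‖ ≤ ε * N := by
  induction D, hD using Nat.le_induction with
  | base =>
    intro B hBc hB ε hε
    obtain ⟨c, hc0, hc⟩ : ∃ c : ℝ, 0 < c ∧ ∀ β ∈ B, c ≤ ‖ex β - 1‖ := by
      rcases B.eq_empty_or_nonempty with h | h
      · exact ⟨1, one_pos, fun β hβ => by rw [h] at hβ; exact hβ.elim⟩
      · have hcont : Continuous fun β : ℝ => ‖ex β - 1‖ := by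
          unfold ex
          fun_prop
        obtain ⟨β₀, hβ₀, hmin⟩ := hBc.exists_isMinOn h hcont.continuousOn
        refine ⟨‖ex β₀ - 1‖, norm_pos_iff.mpr (sub_ne_zero.mpr (Weyl_ex_ne_one (hB β₀ hβ₀))), ?_⟩
        intro β hβ
        exact hmin hβ
    obtain ⟨N0, hN0⟩ := exists_nat_ge (2 / c / ε)
    refine ⟨N0, fun N hN Q hd hQ => ?_⟩
    obtain ⟨β, hβ⟩ : ∃ β, β = Q.coeff 1 := ⟨_, rfl⟩
    rw [← hβ] at hQ
    have hβi := hB β hQ
    have hpe : ∀ x : ℕ, ex (Q.eval (x : ℝ)) = ex β ^ x * ex (Q.coeff 0) := by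
      intro x
      rw [← Weyl_ex_nat, ← ex_add]
      congr 1
      rw [eval_eq_sum_range' (n := 2) (by omega), Finset.sum_range_succ, Finset.sum_range_one, hβ]
      ring
    simp only [hpe]
    rw [← Finset.sum_mul, norm_mul, norm_ex, mul_one, geom_sum_eq (Weyl_ex_ne_one hβi), norm_div]
    have h1 : ‖ex β ^ N - 1‖ ≤ 2 := by
      calc ‖ex β ^ N - 1‖ ≤ ‖ex β ^ N‖ + ‖(1 : ℂ)‖ := norm_sub_le _ _
        _ = 2 := by rw [norm_pow, norm_ex]; norm_num
    have h2 : (N0 : ℝ) ≤ N := by exact_mod_cast hN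
    calc ‖ex β ^ N - 1‖ / ‖ex β - 1‖ ≤ 2 / c := by
          have := hc β hQ
          gcongr
      _ = ε * (2 / c / ε) := by field_simp
      _ ≤ ε * N := by
        apply mul_le_mul_of_nonneg_left _ hε.le
        exact hN0.trans h2
  | succ D hD ih =>
    intro B hBc hB ε hε
    obtain ⟨H, hH⟩ := exists_nat_ge (16 / ε ^ 2 + 1)
    have hH1 : (1 : ℝ) ≤ H := by
      have : (0 : ℝ) ≤ 16 / ε ^ 2 := by positivity
      linarith
    have hHpos : (0 : ℝ) < H := by linarith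
    have hH1' : 1 ≤ H := by exact_mod_cast hH1
    have hHe : 1 / (H : ℝ) ≤ ε ^ 2 / 16 := by
      rw [div_le_iff₀ hHpos]
      have h1 : 16 / ε ^ 2 ≤ (H : ℝ) := by linarith
      rw [div_le_iff₀ (by positivity)] at h1
      nlinarith
    have hδ : 0 < ε ^ 2 / 16 := by positivity
    have hex : ∀ s : ℕ, ∃ N0 : ℕ, 1 ≤ s → ∀ N ≥ N0, ∀ Q : Polynomial ℝ, Q.natDegree ≤ D →
        Q.coeff D ∈ (fun β : ℝ => (((D + 1) * s : ℕ) : ℝ) * β) '' B →
        ‖∑ n ∈ Finset.range N, ex (Q.eval (n : ℝ))‖ ≤ ε ^ 2 / 16 * N := by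
      intro s
      by_cases hs : 1 ≤ s
      · obtain ⟨N0, hN0⟩ := ih ((fun β : ℝ => (((D + 1) * s : ℕ) : ℝ) * β) '' B)
          (hBc.image (by fun_prop)) (by
            rintro _ ⟨β, hβ, rfl⟩
            exact (hB β hβ).natCast_mul (by positivity)) _ hδ
        exact ⟨N0, fun _ => hN0⟩
      · exact ⟨0, fun h => absurd h hs⟩
    choose Ns hNs using hex
    obtain ⟨N1, hN1⟩ := exists_nat_ge (2 * (H : ℝ) * (16 / ε ^ 2) + 4 * H / ε + 1)
    refine ⟨max N1 ((Finset.range H).sup Ns), fun N hN Q hd hQ => ?_⟩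
    have hNN1 : (N1 : ℝ) ≤ N := by exact_mod_cast (le_max_left _ _).trans hN
    have a1 : (0 : ℝ) ≤ 2 * (H : ℝ) * (16 / ε ^ 2) := by positivity
    have a2 : (0 : ℝ) ≤ 4 * H / ε := by positivity
    have hNpos : (0 : ℝ) < N := by linarith
    have hNpos' : 1 ≤ N := by exact_mod_cast hNpos
    have hv := MB.WP.vdc (X := N) (H := H) hNpos' hH1' (U := fun n => ex (Q.eval (n : ℝ)))
      (fun n => (norm_ex _).le) hδ.le (by
        intro s hs hsH
        have h1 := hNs s hs N ((Finset.le_sup (f := Ns) (Finset.mem_range.2 hsH)).trans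
          ((le_max_right _ _).trans hN)) _ (MB.WP.diff_poly hd (hB _ hQ) hs).1
          ⟨_, hQ, (WeylU_coeff hd s).symm⟩
        refine le_trans (le_of_eq ?_) h1
        congr 1
        refine Finset.sum_congr rfl fun n _ => ?_
        rw [conj_ex, ← ex_add]
        congr 1
        rw [eval_sub, taylor_eval]
        push_cast
        ring_nf)
    have h2 : 2 * (H : ℝ) / N ≤ ε ^ 2 / 16 := by
      rw [div_le_iff₀ hNpos]
      have h3 : 2 * (H : ℝ) * (16 / ε ^ 2) ≤ N := by linarith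
      have h4 := mul_le_mul_of_nonneg_left h3 hδ.le
      have h5 : ε ^ 2 / 16 * (2 * (H : ℝ) * (16 / ε ^ 2)) = 2 * H := by
        field_simp
      linarith
    have h3 : Real.sqrt (1 / H + ε ^ 2 / 16 + 2 * H / N) ≤ ε / 2 := by
      rw [Real.sqrt_le_left (by positivity)]
      nlinarith
    have h4 : 2 * (H : ℝ) ≤ ε / 2 * N := by
      have h5 : 4 * (H : ℝ) / ε ≤ N := by linarith
      rw [div_le_iff₀ hε] at h5
      linarith
    calc ‖∑ n ∈ Finset.range N, ex (Q.eval (n : ℝ))‖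
        ≤ 2 * H + N * Real.sqrt (1 / H + ε ^ 2 / 16 + 2 * H / N) := hv
      _ ≤ ε / 2 * N + N * (ε / 2) := add_le_add h4 (mul_le_mul_of_nonneg_left h3 hNpos.le)
      _ = ε * N := by ring

/-- Weyl's theorem, uniform in the coefficients of degree less than `d`, and in the top coefficient
in a compact set of irrational numbers -/
theorem weylU {d : ℕ} (hd : 1 ≤ d) {B : Set ℝ} (hBc : IsCompact B) (hB : ∀ β ∈ B, Irrational β)
    {ε : ℝ} (hε : 0 < ε) :
    ∃ N0 : ℕ, ∀ N ≥ N0, ∀ Q : Polynomial ℝ, Q.natDegree ≤ d → Q.coeff d ∈ B →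
      ‖∑ n ∈ Finset.Icc 1 N, ex (Q.eval (n : ℝ))‖ ≤ ε * N := by
  obtain ⟨N0, hN0⟩ := WeylU_top hd B hBc hB (ε / 2) (half_pos hε)
  obtain ⟨N1, hN1⟩ := exists_nat_ge (4 / ε)
  refine ⟨max N0 N1, fun N hN Q hQd hQ => ?_⟩
  have h1 := hN0 N ((le_max_left _ _).trans hN) Q hQd hQ
  have h2 : (N1 : ℝ) ≤ N := by exact_mod_cast (le_max_right _ _).trans hN
  have h3 : 4 / ε ≤ N := hN1.trans h2
  rw [div_le_iff₀ hε] at h3
  have h4 : ∑ n ∈ Finset.Icc 1 N, ex (Q.eval (n : ℝ)) =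
      ∑ n ∈ Finset.range N, ex (Q.eval (n : ℝ)) + ex (Q.eval (N : ℝ)) -
        ex (Q.eval ((0 : ℕ) : ℝ)) := by
    have h5 : ∑ n ∈ Finset.range (N + 1), ex (Q.eval (n : ℝ)) =
        ∑ n ∈ Finset.Icc 1 N, ex (Q.eval (n : ℝ)) + ex (Q.eval ((0 : ℕ) : ℝ)) := by
      rw [Finset.sum_range_succ', Finset.range_eq_Ico,
        Finset.sum_Ico_add' (fun n : ℕ => ex (Q.eval (n : ℝ))) 0 N 1]
      rfl
    rw [Finset.sum_range_succ] at h5
    rw [h5]
    ring
  rw [h4]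
  have h5 := norm_sub_le (∑ n ∈ Finset.range N, ex (Q.eval (n : ℝ)) + ex (Q.eval (N : ℝ)))
    (ex (Q.eval ((0 : ℕ) : ℝ)))
  have h6 := norm_add_le (∑ n ∈ Finset.range N, ex (Q.eval (n : ℝ))) (ex (Q.eval (N : ℝ)))
  rw [norm_ex] at h5 h6
  linarith

end Pool.Agent.Lib.MP_3e612f_nt.HU
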